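import Pool.Agent.U661.EI.Fin

/-!
# Characteristic numbers
-/

set_option autoImplicit false

namespace Pool.Agent.U661.EI

open Finset MeasureTheory
open Pool.Agent.W666.GB Pool.Agent.W669.HD Pool.Agent.R770.QC

variable {m : ℕ} {V : Type} [NormedAddCommGroup V] [InnerProductSpace ℝ V]

theorem coef_nonneg
    (P : MultilinearMap ℝ (fun _ : Fin m => (Fin m × Bool → Fin m × Bool → ℝ)) ℝ) :
    0 ≤ coef P := Finset.sum_nonneg fun _ _ => abs_nonneg _

theorem Em_expand (X : Fin m × Bool → Fin m × Bool → ℝ) : X = ∑ q, X q.1 q.2 • Em q := by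
  funext k l
  simp only [Finset.sum_apply, Pi.smul_apply, smul_eq_mul, Em]
  rw [Finset.sum_eq_single (k, l)]
  · simp
  · rintro ⟨a, b⟩ - hne
    by_cases ha : a = k
    · subst ha
      have hb : b ≠ l := fun hb => hne (by rw [hb])
      simp [hb.symm]
    · simp [Pi.single_eq_of_ne (Ne.symm ha)]
  · simp

theorem abs_le_coef
    (P : MultilinearMap ℝ (fun _ : Fin m => (Fin m × Bool → Fin m × Bool → ℝ)) ℝ)
    {c : ℝ} (X : Fin m → Fin m × Bool → Fin m × Bool → ℝ)
    (hX : ∀ b k l, |X b k l| ≤ c) : |P X| ≤ c ^ m * coef P := by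
  have h1 : P X = ∑ r : Fin m → (Fin m × Bool) × (Fin m × Bool),
      (∏ b, X b (r b).1 (r b).2) * P fun b => Em (r b) := by
    have h2 : X = fun b => ∑ q, X b q.1 q.2 • Em q := funext fun b => Em_expand (X b)
    conv_lhs => rw [h2]
    rw [MultilinearMap.map_sum]
    refine Finset.sum_congr rfl fun r _ => ?_
    rw [MultilinearMap.map_smul_univ, smul_eq_mul]
  rw [h1]
  unfold coef
  rw [Finset.mul_sum]
  refine (Finset.abs_sum_le_sum_abs _ _).trans (Finset.sum_le_sum fun r _ => ?_)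
  rw [abs_mul, Finset.abs_prod]
  refine mul_le_mul_of_nonneg_right ?_ (abs_nonneg _)
  calc ∏ b, |X b (r b).1 (r b).2| ≤ ∏ _b : Fin m, c :=
        Finset.prod_le_prod (fun _ _ => abs_nonneg _) fun b _ => hX b _ _
    _ = c ^ m := by rw [Finset.prod_const, Finset.card_univ, Fintype.card_fin]

/-- The bound of the Chern–Weil forms. -/
theorem cw_bound (e : OrthonormalBasis (Fin m × Bool) ℝ V)
    (P : MultilinearMap ℝ (fun _ : Fin m => (Fin m × Bool → Fin m × Bool → ℝ)) ℝ)
    {R : V → V → V → V → ℝ} (hR : AlgCurv R) {η : ℝ} (hη : 0 ≤ η) (hs : SecIn R (-η) η) :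
    |cw e P R| ≤ 1 / 2 ^ m * (((2 * m).factorial : ℝ) * (4 / 3 * η) ^ m * coef P) := by
  have h1 : ∀ x y z w : V, ‖x‖ = 1 → ‖y‖ = 1 → ‖z‖ = 1 → ‖w‖ = 1 → |R x y z w| ≤ 4 / 3 * η :=
    fun x y z w hx hy hz hw => hR.pol3 hη (hR.sec_all hη hs) x y z w hx hy hz hw
  have he : ∀ i, ‖e i‖ = 1 := fun i => e.orthonormal.1 i
  have hcard : Fintype.card (Equiv.Perm (Fin m × Bool)) = (2 * m).factorial := by
    rw [Fintype.card_perm, Fintype.card_prod, Fintype.card_fin, Fintype.card_bool, mul_comm]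
  have h2 : |∑ σ : Equiv.Perm (Fin m × Bool), ((Equiv.Perm.sign σ : ℤ) : ℝ) *
      P (fun b => fun k l => R (e (σ (b, false))) (e (σ (b, true))) (e k) (e l))| ≤
      ((2 * m).factorial : ℝ) * (4 / 3 * η) ^ m * coef P := by
    refine (Finset.abs_sum_le_sum_abs _ _).trans ?_
    have h3 : ∀ σ ∈ (univ : Finset (Equiv.Perm (Fin m × Bool))),
        |((Equiv.Perm.sign σ : ℤ) : ℝ) *
          P (fun b => fun k l => R (e (σ (b, false))) (e (σ (b, true))) (e k) (e l))| ≤
        (4 / 3 * η) ^ m * coef P := by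
      intro σ _
      rw [abs_mul]
      have h4 : |((Equiv.Perm.sign σ : ℤ) : ℝ)| = 1 := by
        rcases Int.units_eq_one_or (Equiv.Perm.sign σ) with h | h <;> rw [h] <;> norm_num
      rw [h4, one_mul]
      exact abs_le_coef P _ fun b k l => h1 _ _ _ _ (he _) (he _) (he _) (he _)
    refine (Finset.sum_le_card_nsmul _ _ _ h3).trans (le_of_eq ?_)
    rw [nsmul_eq_mul, Finset.card_univ, hcard]
    ring
  unfold cw
  rw [abs_mul, abs_of_nonneg (by positivity : (0 : ℝ) ≤ 1 / 2 ^ m)]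
  exact mul_le_mul_of_nonneg_left h2 (by positivity)

/-- The characteristic numbers are bounded by the Euler characteristic. -/
theorem characteristic {M : Type} [MeasurableSpace M] (μ : Measure M) [IsFiniteMeasure μ]
    (K : CurvField m M) {s δ κ : ℝ} (hm : 2 ≤ m) (hs : s = 1 ∨ s = -1) (hδ : 0 < δ)
    (h : ∀ p, EinCone (K.e p) s δ κ (K.R p)) (hi : Integrable K.gb μ)
    (P : MultilinearMap ℝ (fun _ : Fin m => (Fin m × Bool → Fin m × Bool → ℝ)) ℝ) :
    cut m δ κ * |∫ p, cw (K.e p) P (K.R p) ∂μ| ≤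
      m.factorial * (8 * Real.pi * (2 * m - 1) * κ / 3) ^ m * coef P *
        (s ^ m * ∫ p, K.gb p ∂μ) := by
  have hm1 : (1 : ℝ) < 2 * m - 1 := by
    have : (2 : ℝ) ≤ m := by exact_mod_cast hm
    linarith
  rcases isEmpty_or_nonempty M with hM | ⟨⟨p⟩⟩
  · have : μ = 0 := Measure.eq_zero_of_isEmpty μ
    rw [this]
    simp
  have h1 : ∀ p, _ := fun p => pointwise (K.e p) hm hs hδ.le (h p)
  have hκ : 0 < κ := lt_of_lt_of_le hδ (h1 p).1
  have hvol := (volume μ K hm hs hδ h hi).1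
  have hc : 0 < cut m δ κ := cut_pos hm hδ (h1 p).1
  have hπ := Real.pi_pos
  have hP := coef_nonneg P
  set B : ℝ := 1 / 2 ^ m * (((2 * m).factorial : ℝ) * (4 / 3 * ((2 * m - 1) * κ)) ^ m *
    coef P) with hB
  have hB0 : 0 ≤ B := by positivity
  have h2 : |∫ p, cw (K.e p) P (K.R p) ∂μ| ≤ B * μ.real Set.univ := by
    have := norm_integral_le_of_norm_le_const (μ := μ) (C := B)
      (f := fun p => cw (K.e p) P (K.R p)) (Filter.Eventually.of_forall fun p => by
        rw [Real.norm_eq_abs]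
        exact cw_bound (K.e p) P (K.curv p) (η := (2 * m - 1) * κ) (by positivity)
          (sec_in hm hs hδ.le (K.e p) (h p)))
    rwa [Real.norm_eq_abs] at this
  have e1 : B = (m.factorial * (8 * Real.pi * (2 * m - 1) * κ / 3) ^ m * coef P) *
      roundGB m 1 := by
    have e2 : (8 * Real.pi * (2 * m - 1) * κ / 3) ^ m * 2 ^ m =
        (4 / 3 * ((2 * m - 1) * κ)) ^ m * (4 * Real.pi) ^ m := by
      rw [← mul_pow, ← mul_pow]
      congr 1
      ring
    have hf : (m.factorial : ℝ) ≠ 0 := by positivity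
    rw [hB]
    unfold roundGB
    rw [one_pow]
    field_simp
    linear_combination (-(coef P)) * e2
  calc cut m δ κ * |∫ p, cw (K.e p) P (K.R p) ∂μ|
      ≤ cut m δ κ * (B * μ.real Set.univ) := mul_le_mul_of_nonneg_left h2 hc.le
    _ = (m.factorial * (8 * Real.pi * (2 * m - 1) * κ / 3) ^ m * coef P) *
        (roundGB m 1 * cut m δ κ * μ.real Set.univ) := by
        rw [e1]
        ring
    _ ≤ _ := mul_le_mul_of_nonneg_left hvol (by positivity)

end Pool.Agent.U661.EI
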