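import Pool.Agent.U661.RD.Defs

/-!
# Definitions
-/

set_option autoImplicit false

namespace Pool.Agent.U661.EI

open Finset Pool.Agent.W666.GB Pool.Agent.U661.RD

variable {m : ℕ} {V : Type} [NormedAddCommGroup V] [InnerProductSpace ℝ V]

/-- The Ricci tensor of `R` is `(2 m - 1) κ` times the metric. -/
def Einstein (e : OrthonormalBasis (Fin m × Bool) ℝ V) (R : V → V → V → V → ℝ) (κ : ℝ) : Prop :=
  ∀ y w : V, ∑ i, R (e i) y (e i) w = (2 * m - 1) * κ * inner ℝ y w

/-- The pointwise hypothesis: `s R = δ unitT + D + ∑ skewCurv (A a) - ∑ (h b ∧ h b)` with the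
condition `RevM` (this is `NegRevM δ (- s R)`), or `s R = δ unitT + P + skewCurv A + skewCurv B`
where the curvature operator of `P` is nonnegative (this is `TwoSkew δ (- s R)`), and the Ricci
tensor of `R` is `s (2 m - 1) κ` times the metric. -/
def EinCone (e : OrthonormalBasis (Fin m × Bool) ℝ V) (s δ κ : ℝ) (R : V → V → V → V → ℝ) :
    Prop :=
  AlgCurv R ∧ (NegRevM δ (fun x y z w => -(s * R x y z w)) ∨
    Pool.Agent.Y195.HF.TwoSkew δ fun x y z w => -(s * R x y z w)) ∧ Einstein e R (s * κ)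

/-- The first three terms of the binomial expansion of `(δ + (κ - δ))^m`. -/
noncomputable def cut (m : ℕ) (δ κ : ℝ) : ℝ :=
  δ ^ m + m * δ ^ (m - 1) * (κ - δ) + m * (m - 1) / 2 * δ ^ (m - 2) * (κ - δ) ^ 2

/-- The lower bound of the Gauss–Bonnet–Chern integrand; `w` is the squared norm of the Weyl
tensor. -/
noncomputable def quadGB (m : ℕ) (δ κ w : ℝ) : ℝ :=
  roundGB m 1 * (cut m δ κ + δ ^ (m - 2) * w / (8 * (2 * m - 1) * (2 * m - 3)))

/-- The value on the orthonormal basis `e` of the form `P(Ω, …, Ω)` of degree `2 m`, where `P` is a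
multilinear form on matrices and `Ω` the matrix of curvature forms. -/
noncomputable def cw (e : OrthonormalBasis (Fin m × Bool) ℝ V)
    (P : MultilinearMap ℝ (fun _ : Fin m => (Fin m × Bool → Fin m × Bool → ℝ)) ℝ)
    (R : V → V → V → V → ℝ) : ℝ :=
  1 / 2 ^ m * ∑ σ : Equiv.Perm (Fin m × Bool), ((Equiv.Perm.sign σ : ℤ) : ℝ) *
    P (fun b => fun k l => R (e (σ (b, false))) (e (σ (b, true))) (e k) (e l))

/-- the elementary matrices -/
def Em (q : (Fin m × Bool) × (Fin m × Bool)) : Fin m × Bool → Fin m × Bool → ℝ :=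
  Pi.single q.1 (Pi.single q.2 1)

/-- The sum of the moduli of the coefficients of `P`, its values on elementary matrices. -/
noncomputable def coef
    (P : MultilinearMap ℝ (fun _ : Fin m => (Fin m × Bool → Fin m × Bool → ℝ)) ℝ) : ℝ :=
  ∑ r : Fin m → (Fin m × Bool) × (Fin m × Bool), |P fun b => Em (r b)|

end Pool.Agent.U661.EI
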