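import Pool.Agent.U661.EI.Gm
import Pool.Agent.U661.EI.Defs
import Pool.Agent.U661.RD.Bridge

/-!
# Einstein tensors
-/

set_option autoImplicit false

namespace Pool.Agent.U661.EI

open Finset Pool.Agent.Y195.HF Pool.Agent.W666.GB Pool.Agent.W669.HD Pool.Agent.U661.HS
open Pool.Agent.U661.RW Pool.Agent.R770.QC Pool.Agent.U661.RZ
open Pool.Agent.U661.RV hiding co

variable {m : ℕ} {V : Type} [NormedAddCommGroup V] [InnerProductSpace ℝ V]

theorem cp_sy (e : OrthonormalBasis (Fin m × Bool) ℝ V) {F : V → V → V → V → ℝ}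
    (hF : AlgCurv F) : Sy (cp e F : T4 m) :=
  ⟨fun _ _ _ _ => hF.anti _ _ _ _, fun _ _ _ _ => hF.a34 _ _ _ _, fun _ _ _ _ => hF.pair _ _ _ _⟩

theorem uT_sy : Sy (uT : T4 m) := by
  refine ⟨fun i j k l => ?_, fun i j k l => ?_, fun i j k l => ?_⟩
  · simp only [uT, unitCurv]
    ring
  · simp only [uT, unitCurv]
    ring
  · simp only [uT, unitCurv, eq_comm]
    ring

theorem sum_uT (X : T4 m) : ∑ i, ∑ j, ∑ k, ∑ l, X i j k l * (uT : T4 m) i j k l = tr4 X := by
  unfold tr4
  refine Finset.sum_congr rfl fun i _ => Finset.sum_congr rfl fun j _ => ?_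
  have h1 : ∀ k l, X i j k l * (uT : T4 m) i j k l =
      (if i = k then (if j = l then X i j k l else 0) else 0) -
        (if j = k then (if i = l then X i j k l else 0) else 0) := by
    intro k l
    simp only [uT, unitCurv]
    split_ifs <;> ring
  simp only [h1, Finset.sum_sub_distrib]
  have h2 : ∀ (a b : Fin m × Bool), ∑ k, ∑ l, (if a = k then (if b = l then X i j k l else 0)
      else 0) = X i j a b := by
    intro a b
    rw [Finset.sum_eq_single a]
    · rw [Finset.sum_eq_single b]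
      · simp
      · intro l _ hl
        simp [Ne.symm hl]
      · simp
    · intro k _ hk
      simp [Ne.symm hk]
    · simp
  rw [h2, h2]

theorem rick_uT (j l : Fin m × Bool) : rick (uT : T4 m) j l = (2 * m - 1) * if j = l then 1 else 0 := by
  classical
  unfold rick
  have h1 : ∀ i : Fin m × Bool, (uT : T4 m) i j i l = (if j = l then 1 else 0) -
      (if i = l then (if j = l then 1 else 0) else 0) := by
    intro i
    simp only [uT, unitCurv]
    by_cases h : i = l
    · subst h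
      by_cases h' : j = i <;> simp [h']
    · simp [h]
  simp only [h1, Finset.sum_sub_distrib, Finset.sum_const, Finset.card_univ, Fintype.card_prod,
    Fintype.card_fin, Fintype.card_bool, nsmul_eq_mul, Finset.sum_ite_eq', Finset.mem_univ, if_true]
  push_cast
  ring

/-- Evaluation of the quadratic invariant. -/
theorem Qk_ein {K W : T4 m} {t : ℝ} (hKW : ∀ i j k l, K i j k l = W i j k l + t * (uT : T4 m) i j k l)
    (hric : ∀ j l, rick K j l = (2 * m - 1) * t * if j = l then 1 else 0) (hW : tr4 W = 0) :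
    Qk K = 2 * m * (2 * m - 1) * (2 * m - 2) * (2 * m - 3) * t ^ 2 +
      ∑ i, ∑ j, ∑ k, ∑ l, W i j k l ^ 2 := by
  have hs : ∑ i, ∑ j, K i j i j = 2 * m * (2 * m - 1) * t := by
    rw [Finset.sum_comm]
    have h1 : ∀ j, ∑ i, K i j i j = (2 * m - 1) * t := by
      intro j
      have := hric j j
      rw [if_pos rfl, mul_one] at this
      exact this
    simp only [h1, Finset.sum_const, Finset.card_univ, Fintype.card_prod, Fintype.card_fin,
      Fintype.card_bool, nsmul_eq_mul]
    push_cast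
    ring
  have hr : ∑ j, ∑ l, rick K j l ^ 2 = 2 * m * ((2 * m - 1) * t) ^ 2 := by
    have h1 : ∀ j l, rick K j l ^ 2 = if j = l then ((2 * m - 1) * t) ^ 2 else 0 := by
      intro j l
      rw [hric]
      split_ifs <;> ring
    simp only [h1, Finset.sum_ite_eq, Finset.mem_univ, if_true, Finset.sum_const,
      Finset.card_univ, Fintype.card_prod, Fintype.card_fin, Fintype.card_bool, nsmul_eq_mul]
    push_cast
    ring
  have hn : ∑ i, ∑ j, ∑ k, ∑ l, K i j k l ^ 2 = ∑ i, ∑ j, ∑ k, ∑ l, W i j k l ^ 2 +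
      t ^ 2 * (2 * (2 * m * (2 * m - 1))) := by
    have h1 : ∀ i j k l, K i j k l ^ 2 = W i j k l ^ 2 + 2 * t * (W i j k l * (uT : T4 m) i j k l) +
        t ^ 2 * ((uT : T4 m) i j k l * (uT : T4 m) i j k l) := by
      intro i j k l
      rw [hKW]
      ring
    simp only [h1, Finset.sum_add_distrib, ← Finset.mul_sum]
    rw [sum_uT, sum_uT, hW, tr4_unit]
    ring
  unfold Qk
  rw [hs, hr, hn]
  ring

/-- The bound for Einstein tensors. -/
theorem ein_gbc (e : OrthonormalBasis (Fin m × Bool) ℝ V) (hm : 2 ≤ m) {δ κ : ℝ}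
    {F : V → V → V → V → ℝ} (hF : AlgCurv F) (hE : Einstein e F κ)
    (hp : GP δ (fun i j k l => cp e F i j k l - δ * (uT : T4 m) i j k l : T4 m)) :
    quadGB m δ κ (devR e F (-κ)) ≤ gbc e F := by
  obtain ⟨N, rfl⟩ : ∃ N, m = N + 2 := ⟨m - 2, by omega⟩
  have hπ := Real.pi_pos
  have hc : 0 < 1 / ((8 * Real.pi) ^ (N + 2) * ((N + 2).factorial : ℝ)) := by positivity
  set K : T4 (N + 2) := fun i j k l => cp e F i j k l - δ * (uT : T4 (N + 2)) i j k l with hKd
  have hKF : ∀ i j k l, K i j k l = cp e F i j k l - δ * (uT : T4 (N + 2)) i j k l :=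
    fun _ _ _ _ => rfl
  have hcp : cp e F = dD δ K := by
    funext i j k l
    simp only [dD, hKd]
    ring
  have hS1 := cp_sy e hF
  have hS2 := uT_sy (m := N + 2)
  have hSy : Sy K := ⟨fun i j k l => by rw [hKF, hKF, hS1.a12 i j k l, hS2.a12 i j k l]; ring,
    fun i j k l => by rw [hKF, hKF, hS1.a34 i j k l, hS2.a34 i j k l]; ring,
    fun i j k l => by rw [hKF, hKF, hS1.pr i j k l, hS2.pr i j k l]⟩
  have h1 := gm_quad hSy hp (k := N) rfl
  have hrF : ∀ j l, rick (cp e F) j l = (2 * ((N + 2 : ℕ) : ℝ) - 1) * κ * if j = l then 1 else 0 := by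
    intro j l
    have := hE (e j) (e l)
    rw [orthonormal_iff_ite.mp e.orthonormal j l] at this
    exact this
  have hrK : ∀ j l, rick K j l = (2 * ((N + 2 : ℕ) : ℝ) - 1) * (κ - δ) * if j = l then 1 else 0 := by
    intro j l
    have h2 : rick K j l = rick (cp e F) j l - δ * rick (uT : T4 (N + 2)) j l := by
      unfold rick
      rw [Finset.mul_sum, ← Finset.sum_sub_distrib]
    rw [h2, hrF, rick_uT]
    ring
  set W : T4 (N + 2) := fun i j k l => cp e F i j k l - κ * (uT : T4 (N + 2)) i j k l with hW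
  have hsF : scal e F = 2 * ((N + 2 : ℕ) : ℝ) * (2 * ((N + 2 : ℕ) : ℝ) - 1) * κ := by
    have h2 : ∀ j, ∑ i, F (e i) (e j) (e i) (e j) = (2 * ((N + 2 : ℕ) : ℝ) - 1) * κ := by
      intro j
      have := hrF j j
      rw [if_pos rfl, mul_one] at this
      exact this
    unfold scal
    rw [Finset.sum_comm]
    simp only [h2, Finset.sum_const, Finset.card_univ, Fintype.card_prod, Fintype.card_fin,
      Fintype.card_bool, nsmul_eq_mul]
    push_cast
    ring
  have htF : tr4 (cp e F) = 2 * (2 * ((N + 2 : ℕ) : ℝ) * (2 * ((N + 2 : ℕ) : ℝ) - 1) * κ) := by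
    rw [tr4_curv e hF, hsF]
  have htW : tr4 W = 0 := by
    have h2 := tr4_dD (-κ) (cp e F)
    have h3 : (dD (-κ) (cp e F) : T4 (N + 2)) = W := by
      funext i j k l
      simp only [dD, hW]
      ring
    rw [h3, htF] at h2
    rw [h2]
    ring
  have htK : tr4 K = 2 * (2 * ((N + 2 : ℕ) : ℝ) * (2 * ((N + 2 : ℕ) : ℝ) - 1)) * (κ - δ) := by
    have h2 := tr4_dD δ K
    rw [← hcp, htF] at h2
    linarith
  have hQ := Qk_ein (K := K) (W := W) (t := κ - δ) (fun i j k l => by rw [hKF]; simp only [hW]; ring)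
    hrK htW
  have hdev : devR e F (-κ) = ∑ i, ∑ j, ∑ k, ∑ l, W i j k l ^ 2 := by
    unfold devR
    simp only [hW, cp, uT]
    refine Finset.sum_congr rfl fun i _ => Finset.sum_congr rfl fun j _ =>
      Finset.sum_congr rfl fun k _ => Finset.sum_congr rfl fun l _ => ?_
    ring
  rw [← hdev] at hQ
  have h0 : roundGB (N + 2) δ = gbc e (fun x y z w => δ * unitT x y z w) := by
    rw [← gbc_unit e, RV.gbc_neg]
  have h0' : roundGB (N + 2) δ = 1 / ((8 * Real.pi) ^ (N + 2) * ((N + 2).factorial : ℝ)) *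
      gm (fun _ : Fin (N + 2) => (fun x y z w => δ * (uT : T4 (N + 2)) x y z w :
        T4 (N + 2))) := by
    rw [h0, gbc_gm]
    congr 2
    funext _ x y z w
    simp only [cp, uT, cp_unit]
  rw [gbc_gm, hcp]
  have h3 := mul_le_mul_of_nonneg_left h1 hc.le
  rw [mul_add, mul_add, ← h0'] at h3
  refine le_trans (le_of_eq ?_) h3
  rw [htK, hQ]
  have e1 : 2 * (N + 2) - 2 = 2 * N + 2 := by omega
  have e1' : 2 * (N + 2) - 4 = 2 * N := by omega
  have e2 : ((2 * (N + 2)).factorial : ℝ) =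
      (2 * N + 4) * (2 * N + 3) * ((2 * N + 2) * (2 * N + 1) * (2 * N).factorial) := by
    rw [show 2 * (N + 2) = 2 * N + 1 + 1 + 1 + 1 by ring, Nat.factorial_succ, Nat.factorial_succ,
      Nat.factorial_succ, Nat.factorial_succ]
    push_cast
    ring
  have e2' : ((2 * N + 2).factorial : ℝ) = (2 * N + 2) * (2 * N + 1) * (2 * N).factorial := by
    rw [show 2 * N + 2 = 2 * N + 1 + 1 by ring, Nat.factorial_succ, Nat.factorial_succ]
    push_cast
    ring
  have e3 : (8 * Real.pi) ^ (N + 2) = 2 ^ (N + 2) * (4 * Real.pi) ^ (N + 2) := by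
    rw [← mul_pow]
    congr 1
    ring
  have e4 : (((N + 2).choose 2 : ℕ) : ℝ) = (N + 2) * (N + 1) / 2 := by
    rw [Nat.cast_choose_two]
    push_cast
    ring
  have k0 : (0 : ℝ) ≤ N := Nat.cast_nonneg N
  have n1 : (2 * (N : ℝ) + 3) ≠ 0 := by positivity
  have n2 : (2 * (N : ℝ) + 1) ≠ 0 := by positivity
  have n3 : (2 * ((N : ℝ) + 2) - 1) = 2 * N + 3 := by ring
  have n4 : (2 * ((N : ℝ) + 2) - 3) = 2 * N + 1 := by ring
  unfold quadGB cut roundGB
  rw [e1, e1', e2, e2', e3, e4, one_pow, Nat.add_sub_cancel,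
    show N + 2 - 1 = N + 1 by omega]
  push_cast
  rw [n3, n4, pow_succ (2 : ℝ) (N + 1)]
  field_simp
  ring

/-- The bound for the first class. -/
theorem ein_rev (e : OrthonormalBasis (Fin m × Bool) ℝ V) (hm : 2 ≤ m) {δ κ : ℝ} (hδ : 0 ≤ δ)
    {n q : ℕ} {A : Fin n → V → V → ℝ} {h : Fin q → V → V → ℝ} {D : V → V → V → V → ℝ}
    (hA : ∀ a, SkewForm (A a)) (hh : ∀ b, HS.SymForm (h b)) (hr : RevM A h D)
    (hE : Einstein e (full (plus δ D) A h) κ) :
    quadGB m δ κ (devR e (full (plus δ D) A h) (-κ)) ≤ gbc e (full (plus δ D) A h) := by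
  obtain ⟨g, hD⟩ := hr.mcone
  have hF := full_curv hA hh hD.curv δ
  have hK := gp_rest (fun a i j => (hA a).anti _ _) (fun b i j => (hh b).symm _ _)
    (hr.revK e hA hh) hδ
  have e1 : (fun i j k l => cp e (full (plus δ D) A h) i j k l - δ * (uT : T4 m) i j k l : T4 m) =
      rest (cp e D) (fun a i j => A a (e i) (e j)) (fun b i j => h b (e i) (e j)) := by
    rw [cp_full]
    funext i j k l
    simp only [dD]
    ring
  exact ein_gbc e hm hF hE (by rw [e1]; exact hK)

/-- The bound for the second class. -/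
theorem ein_two (e : OrthonormalBasis (Fin m × Bool) ℝ V) (hm : 2 ≤ m) {δ κ : ℝ} (hδ : 0 ≤ δ)
    {F P : V → V → V → V → ℝ} {A B : V → V → ℝ} (hF : AlgCurv F) (hA : SkewForm A)
    (hB : SkewForm B) (hP : AlgCurv P) (hn : OpNonneg P)
    (hFP : ∀ x y z w, F x y z w = δ * unitT x y z w + P x y z w + skewCurv A x y z w +
      skewCurv B x y z w) (hE : Einstein e F κ) :
    quadGB m δ κ (devR e F (-κ)) ≤ gbc e F := by
  have hK := gp_two (adm_cp e hP hn) (A := fun i j => A (e i) (e j))
    (B := fun i j => B (e i) (e j)) (fun i j => hA.anti _ _) (fun i j => hB.anti _ _) hδ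
  have e1 : (fun i j k l => cp e F i j k l - δ * (uT : T4 m) i j k l : T4 m) =
      fun i j k l => cp e P i j k l + (scR (fun i j => A (e i) (e j)) i j k l +
        scR (fun i j => B (e i) (e j)) i j k l) := by
    funext i j k l
    have h2 := cp_unit e i j k l
    simp only [cp, hFP, uT, skewCurv, scR, h2]
    ring
  exact ein_gbc e hm hF hE (by rw [e1]; exact hK)

end Pool.Agent.U661.EI
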