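import Pool.Agent.U661.EI.Sec

/-!
# The theorems
-/

set_option autoImplicit false

namespace Pool.Agent.U661.EI

open Finset MeasureTheory
open Pool.Agent.W666.GB Pool.Agent.W669.HD Pool.Agent.Y195.HF Pool.Agent.R770.QC

variable {m : ℕ} {V : Type} [NormedAddCommGroup V] [InnerProductSpace ℝ V]

theorem gbc_smul (e : OrthonormalBasis (Fin m × Bool) ℝ V) (R : V → V → V → V → ℝ) (s : ℝ) :
    gbc e (fun x y z w => s * R x y z w) = s ^ m * gbc e R := by
  unfold gbc
  rw [mul_left_comm]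
  congr 1
  rw [Finset.mul_sum]
  refine Finset.sum_congr rfl fun σ _ => ?_
  rw [Finset.mul_sum]
  refine Finset.sum_congr rfl fun τ _ => ?_
  rw [Finset.prod_mul_distrib, Finset.prod_const, Finset.card_univ, Fintype.card_fin]
  ring

/-- The two classes. -/
theorem pos_case (e : OrthonormalBasis (Fin m × Bool) ℝ V) (hm : 2 ≤ m) {δ κ : ℝ}
    (hδ : 0 ≤ δ) {F : V → V → V → V → ℝ} (hF : AlgCurv F) (hE : Einstein e F κ)
    (h : RD.NegRevM δ (negT F) ∨ TwoSkew δ (negT F)) :
    δ ≤ κ ∧ (∀ x y : V, ‖x‖ = 1 → ‖y‖ = 1 → inner ℝ x y = 0 →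
      |F x y x y - δ| ≤ (2 * m - 1) * (κ - δ)) ∧
      quadGB m δ κ (devR e F (-κ)) ≤ gbc e F := by
  rcases h with ⟨n, q, A, H, D, hA, hH, hr, hR⟩ | ⟨A, B, hA, hB, hn⟩
  · have hH' : ∀ b, HS.SymForm (H b) := fun b => RD.sym_iff (hH b)
    have hr' := hr.old
    have e1 : F = RW.full (RZ.plus δ D) A H := by
      funext x y z w
      have := congrFun (congrFun (congrFun (congrFun hR x) y) z) w
      simp only [negT] at this
      have h2 : RW.full (RZ.plus δ D) A H x y z w = RD.full (RD.plus δ D) A H x y z w := rfl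
      rw [h2]
      linarith
    subst e1
    exact ⟨le_kappa (by omega) e hA hH' hr' hE,
      fun x y hx hy hxy => sec_bound (by omega) e hA hH' hr' hE hx hy hxy,
      ein_rev e hm hδ hA hH' hr' hE⟩
  · set P : V → V → V → V → ℝ := negT (addT (addT (addT (negT F) fun x y z w =>
      δ * unitT x y z w) (skewCurv A)) (skewCurv B)) with hP
    have hFP : ∀ x y z w, F x y z w = δ * unitT x y z w + P x y z w + skewCurv A x y z w +
        skewCurv B x y z w := by
      intro x y z w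
      simp only [hP, negT, addT]
      ring
    have hPc : AlgCurv P :=
      Y195.HF.neg_curv (add_curv (add_curv (add_curv (Y195.HF.neg_curv hF) (unit_curv δ))
        hA.curv) hB.curv)
    have hs : ∀ x y : V, 0 ≤ F x y x y - δ * unitT x y x y := by
      intro x y
      have h1 := hn 1 (fun _ => x) (fun _ => y)
      simp only [Finset.univ_unique, Finset.sum_singleton] at h1
      have h2 : 0 ≤ P x y x y := h1
      have z1 : A x x = 0 := by have := hA.anti x x; linarith
      have z2 : B x x = 0 := by have := hB.anti x x; linarith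
      have h3 : skewCurv A x y x y = 3 * A x y ^ 2 := by
        simp only [skewCurv]
        rw [hA.anti x y, z1]
        ring
      have h4 : skewCurv B x y x y = 3 * B x y ^ 2 := by
        simp only [skewCurv]
        rw [hB.anti x y, z2]
        ring
      rw [hFP, h3, h4]
      have := sq_nonneg (A x y)
      have := sq_nonneg (B x y)
      linarith
    obtain ⟨h1, h2⟩ := sec_two (by omega) e hF hE hs
    exact ⟨h1, h2, ein_two e hm hδ hF hA hB hPc hn hFP hE⟩

/-- The pointwise theorem. -/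
theorem pointwise (e : OrthonormalBasis (Fin m × Bool) ℝ V) (hm : 2 ≤ m) {s δ κ : ℝ}
    (hs : s = 1 ∨ s = -1) (hδ : 0 ≤ δ) {R : V → V → V → V → ℝ} (h : EinCone e s δ κ R) :
    δ ≤ κ ∧ (∀ x y : V, ‖x‖ = 1 → ‖y‖ = 1 → inner ℝ x y = 0 →
      |s * R x y x y - δ| ≤ (2 * m - 1) * (κ - δ)) ∧
      quadGB m δ κ (devR e R (-(s * κ))) ≤ s ^ m * gbc e R := by
  obtain ⟨hRc, hcl, hE⟩ := h
  have hss : s * s = 1 := by rcases hs with hs | hs <;> rw [hs] <;> norm_num
  set F : V → V → V → V → ℝ := fun x y z w => s * R x y z w with hFd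
  have hRF : ∀ x y z w, R x y z w = s * F x y z w := by
    intro x y z w
    simp only [hFd]
    rw [← mul_assoc, hss, one_mul]
  have hF : AlgCurv F := ⟨fun x x' y z w => by simp only [hFd, hRc.add]; ring,
    fun t x y z w => by simp only [hFd, hRc.smul]; ring,
    fun x y z w => by simp only [hFd]; rw [hRc.anti x y z w]; ring,
    fun x y z w => by simp only [hFd]; rw [hRc.pair x y z w],
    fun x y z w => by
      have := hRc.bianchi x y z w
      simp only [hFd]
      linear_combination s * this⟩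
  have hEF : Einstein e F κ := by
    intro y w
    have h1 := hE y w
    simp only [hFd, ← Finset.mul_sum]
    rw [h1]
    linear_combination ((2 * m - 1) * κ * inner ℝ y w) * hss
  have hg : s ^ m * gbc e R = gbc e F := by
    rw [← gbc_smul]
  have hd : devR e R (-(s * κ)) = devR e F (-κ) := by
    unfold devR
    refine Finset.sum_congr rfl fun i _ => Finset.sum_congr rfl fun j _ =>
      Finset.sum_congr rfl fun k _ => Finset.sum_congr rfl fun l _ => ?_
    rw [hRF]
    linear_combination (F (e i) (e j) (e k) (e l) - κ * unitCurv i j k l) ^ 2 * hss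
  rw [hg, hd]
  exact pos_case e hm hδ hF hEF hcl

theorem cut_nonneg (hm : 2 ≤ m) {δ κ : ℝ} (hδ : 0 ≤ δ) (h : δ ≤ κ) : 0 ≤ cut m δ κ := by
  have h1 : (0 : ℝ) ≤ m - 1 := by
    have : (2 : ℝ) ≤ m := by exact_mod_cast hm
    linarith
  have h2 : 0 ≤ κ - δ := by linarith
  unfold cut
  positivity

theorem cut_pos (hm : 2 ≤ m) {δ κ : ℝ} (hδ : 0 < δ) (h : δ ≤ κ) : 0 < cut m δ κ := by
  have h1 : (0 : ℝ) ≤ m - 1 := by
    have : (2 : ℝ) ≤ m := by exact_mod_cast hm
    linarith
  have h2 : 0 ≤ κ - δ := by linarith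
  unfold cut
  positivity

theorem quad_ge (hm : 2 ≤ m) {δ κ w : ℝ} (hδ : 0 ≤ δ) (hw : 0 ≤ w) :
    roundGB m 1 * cut m δ κ ≤ quadGB m δ κ w := by
  have h1 : (0 : ℝ) < 2 * m - 3 := by
    have : (2 : ℝ) ≤ m := by exact_mod_cast hm
    linarith
  have h2 : (0 : ℝ) < 2 * m - 1 := by linarith
  have h3 : 0 < roundGB m 1 := roundGB_pos one_pos
  unfold quadGB
  refine mul_le_mul_of_nonneg_left ?_ h3.le
  have : 0 ≤ δ ^ (m - 2) * w / (8 * (2 * m - 1) * (2 * m - 3)) := by positivity
  linarith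

theorem devR_nonneg (e : OrthonormalBasis (Fin m × Bool) ℝ V) (R : V → V → V → V → ℝ) (κ : ℝ) :
    0 ≤ devR e R κ := by
  unfold devR
  positivity

section field

variable {M : Type} [MeasurableSpace M] (μ : Measure M) (K : CurvField m M)

/-- The integrated inequality. -/
theorem integral (δ : M → ℝ) {s κ : ℝ} (hm : 2 ≤ m) (hs : s = 1 ∨ s = -1)
    (h : ∀ p, 0 ≤ δ p ∧ EinCone (K.e p) s (δ p) κ (K.R p)) (hi : Integrable K.gb μ) :
    ∫ p, quadGB m (δ p) κ (devR (K.e p) (K.R p) (-(s * κ))) ∂μ ≤ s ^ m * ∫ p, K.gb p ∂μ := by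
  have h1 : ∀ p, _ := fun p => pointwise (K.e p) hm hs (h p).1 (h p).2
  rw [← integral_const_mul]
  refine integral_mono_of_nonneg (Filter.Eventually.of_forall fun p => ?_)
    (hi.const_mul _) (Filter.Eventually.of_forall fun p => (h1 p).2.2)
  have h2 : 0 < roundGB m 1 := roundGB_pos one_pos
  exact le_trans (mul_nonneg h2.le (cut_nonneg hm (h p).1 (h1 p).1))
    (quad_ge hm (h p).1 (devR_nonneg _ _ _))

theorem sec_in (hm : 2 ≤ m) {s δ κ : ℝ} (hs : s = 1 ∨ s = -1) (hδ : 0 ≤ δ)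
    (e : OrthonormalBasis (Fin m × Bool) ℝ V) {R : V → V → V → V → ℝ} (h : EinCone e s δ κ R) :
    SecIn R (-((2 * m - 1) * κ)) ((2 * m - 1) * κ) := by
  intro x y hx hy hxy
  have h1 := pointwise e hm hs hδ h
  have hm1 : (1 : ℝ) < 2 * m - 1 := by
    have : (2 : ℝ) ≤ m := by exact_mod_cast hm
    linarith
  have h2 := abs_le.1 (h1.2.1 x y hx hy hxy)
  have h3 := h1.1
  have h4 : δ + (2 * m - 1) * (κ - δ) ≤ (2 * m - 1) * κ := by nlinarith
  have h5 : -((2 * m - 1) * κ) ≤ δ - (2 * m - 1) * (κ - δ) := by nlinarith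
  rcases hs with hs | hs <;> rw [hs] at h2 <;> constructor <;> linarith [h2.1, h2.2]

/-- The bound of the volume. -/
theorem volume [IsFiniteMeasure μ] {s δ κ : ℝ} (hm : 2 ≤ m) (hs : s = 1 ∨ s = -1) (hδ : 0 < δ)
    (h : ∀ p, EinCone (K.e p) s δ κ (K.R p)) (hi : Integrable K.gb μ) :
    roundGB m 1 * cut m δ κ * μ.real Set.univ ≤ s ^ m * ∫ p, K.gb p ∂μ ∧
    (μ ≠ 0 → 0 < s ^ m * ∫ p, K.gb p ∂μ) := by
  have h1 : ∀ p, _ := fun p => pointwise (K.e p) hm hs hδ.le (h p)
  have hr : 0 < roundGB m 1 := roundGB_pos one_pos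
  have hlow : roundGB m 1 * cut m δ κ * μ.real Set.univ ≤ s ^ m * ∫ p, K.gb p ∂μ := by
    rw [← integral_const_mul]
    have h2 : ∫ _p : M, roundGB m 1 * cut m δ κ ∂μ = roundGB m 1 * cut m δ κ * μ.real Set.univ := by
      rw [MeasureTheory.integral_const, smul_eq_mul, mul_comm]
    rw [← h2]
    exact integral_mono (integrable_const _) (hi.const_mul _) fun p =>
      (quad_ge hm hδ.le (devR_nonneg _ _ _)).trans (h1 p).2.2
  refine ⟨hlow, fun hμ => ?_⟩
  have hv : 0 < μ.real Set.univ := by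
    have hμ' : μ Set.univ ≠ 0 := by simpa using hμ
    exact ENNReal.toReal_pos hμ' (measure_ne_top μ _)
  obtain ⟨p⟩ : Nonempty M := by
    by_contra hM
    rw [not_nonempty_iff] at hM
    exact hμ (Measure.eq_zero_of_isEmpty μ)
  have hc : 0 < cut m δ κ := cut_pos hm hδ (h1 p).1
  have : 0 < roundGB m 1 * cut m δ κ * μ.real Set.univ := by positivity
  linarith

end field

end Pool.Agent.U661.EI
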