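import Pool.Agent.U661.RD.Defs

/-!
# Definitions for the bound of order two
-/

set_option autoImplicit false

namespace Pool.Agent.U661.EI

open Finset Pool.Agent.W666.GB Pool.Agent.W669.HD Pool.Agent.U661.RD

variable {m : ℕ} {V : Type} [NormedAddCommGroup V] [InnerProductSpace ℝ V]

/-- Algebraic curvature tensors `R` such that `-R` is `δ unitT + D + ∑ skewCurv (A a) -
∑ (h b ∧ h b)` with the condition `RevM`, or `δ unitT + P + skewCurv A + skewCurv B` where the
curvature operator of `P` is nonnegative. -/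
def NegCone (δ : ℝ) (R : V → V → V → V → ℝ) : Prop :=
  AlgCurv R ∧ (NegRevM δ R ∨ Pool.Agent.Y195.HF.TwoSkew δ R)

/-- `-R - δ unitT` -/
noncomputable def restT (δ : ℝ) (R : V → V → V → V → ℝ) (x y z w : V) : ℝ :=
  -R x y z w - δ * unitT x y z w

/-- The mixed Gauss–Bonnet sum of `j` factors `K` and `m - j` factors `unitT`; it is a positive
multiple of the `j`-th Gauss–Bonnet curvature of `K`. -/
noncomputable def mixGB (e : OrthonormalBasis (Fin m × Bool) ℝ V) (j : ℕ)
    (K : V → V → V → V → ℝ) : ℝ :=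
  ∑ σ : Equiv.Perm (Fin m × Bool), ∑ τ : Equiv.Perm (Fin m × Bool),
    ((Equiv.Perm.sign σ : ℤ) : ℝ) * ((Equiv.Perm.sign τ : ℤ) : ℝ) *
      ∏ b : Fin m, (if (b : ℕ) < j then K else unitT) (e (σ (b, false))) (e (σ (b, true)))
        (e (τ (b, false))) (e (τ (b, true)))

/-- `scal² - 4 |Ric|² + |K|²`, the second Gauss–Bonnet curvature of `K`. -/
noncomputable def secondGB (e : OrthonormalBasis (Fin m × Bool) ℝ V) (K : V → V → V → V → ℝ) : ℝ :=
  scal e K ^ 2 - 4 * ∑ j, ∑ l, (∑ i, K (e i) (e j) (e i) (e l)) ^ 2 +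
    ∑ i, ∑ j, ∑ k, ∑ l, K (e i) (e j) (e k) (e l) ^ 2

/-- The bound: the constant, the linear and the quadratic term. -/
noncomputable def bound2 (e : OrthonormalBasis (Fin m × Bool) ℝ V) (δ : ℝ)
    (R : V → V → V → V → ℝ) : ℝ :=
  roundGB m 1 * (δ ^ m + δ ^ (m - 1) * scal e (restT δ R) / (2 * (2 * m - 1)) +
    δ ^ (m - 2) * secondGB e (restT δ R) / (8 * (2 * m - 1) * (2 * m - 3)))

end Pool.Agent.U661.EI
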