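import Pool.Agent.U661.EI.Ein
import Pool.Agent.U661.EI.GDefs

/-!
# The bound of order two for general tensors
-/

set_option autoImplicit false

namespace Pool.Agent.U661.EI

open Finset Pool.Agent.Y195.HF Pool.Agent.W666.GB Pool.Agent.W669.HD Pool.Agent.U661.HS
open Pool.Agent.U661.RW Pool.Agent.R770.QC Pool.Agent.U661.RZ
open Pool.Agent.U661.RV hiding co

variable {m : ℕ} {V : Type} [NormedAddCommGroup V] [InnerProductSpace ℝ V]

/-- The bound for general tensors. -/
theorem gen_gbc (e : OrthonormalBasis (Fin m × Bool) ℝ V) (hm : 2 ≤ m) {δ : ℝ}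
    {R : V → V → V → V → ℝ} (hR : AlgCurv R) (hp : GP δ (cp e (restT δ R) : T4 m)) :
    bound2 e δ R ≤ (-1) ^ m * gbc e R := by
  obtain ⟨N, rfl⟩ : ∃ N, m = N + 2 := ⟨m - 2, by omega⟩
  have hπ := Real.pi_pos
  have hc : 0 < 1 / ((8 * Real.pi) ^ (N + 2) * ((N + 2).factorial : ℝ)) := by positivity
  have hK : AlgCurv (restT δ R) := by
    have h1 := comb_curv hR (unit_curv (V := V) δ) (-1) (-1)
    have e1 : restT δ R = fun x y z w => (-1) * R x y z w + (-1) * (δ * unitT x y z w) := by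
      funext x y z w
      simp only [restT]
      ring
    rw [e1]
    exact h1
  set K : T4 (N + 2) := cp e (restT δ R) with hKd
  have hcp : cp e (negT R) = dD δ K := by
    funext i j k l
    have h2 := cp_unit e i j k l
    simp only [dD, hKd, cp, restT, negT, uT, h2]
    ring
  have h1 := gm_quad (cp_sy e hK) hp (k := N) rfl
  have h0 : roundGB (N + 2) δ = gbc e (fun x y z w => δ * unitT x y z w) := by
    rw [← gbc_unit e, RV.gbc_neg]
  have h0' : roundGB (N + 2) δ = 1 / ((8 * Real.pi) ^ (N + 2) * ((N + 2).factorial : ℝ)) *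
      gm (fun _ : Fin (N + 2) => (fun x y z w => δ * (uT : T4 (N + 2)) x y z w :
        T4 (N + 2))) := by
    rw [h0, gbc_gm]
    congr 2
    funext _ x y z w
    simp only [cp, uT, cp_unit]
  rw [gbc_eq, hcp]
  have h3 := mul_le_mul_of_nonneg_left h1 hc.le
  rw [mul_add, mul_add, ← h0'] at h3
  refine le_trans (le_of_eq ?_) h3
  have htK : tr4 K = 2 * scal e (restT δ R) := tr4_curv e hK
  have hQ : Qk K = secondGB e (restT δ R) := rfl
  rw [htK, hQ]
  have e1 : 2 * (N + 2) - 2 = 2 * N + 2 := by omega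
  have e1' : 2 * (N + 2) - 4 = 2 * N := by omega
  have e2 : ((2 * (N + 2)).factorial : ℝ) =
      (2 * N + 4) * (2 * N + 3) * ((2 * N + 2) * (2 * N + 1) * (2 * N).factorial) := by
    rw [show 2 * (N + 2) = 2 * N + 1 + 1 + 1 + 1 by ring, Nat.factorial_succ, Nat.factorial_succ,
      Nat.factorial_succ, Nat.factorial_succ]
    push_cast
    ring
  have e2' : ((2 * N + 2).factorial : ℝ) = (2 * N + 2) * (2 * N + 1) * (2 * N).factorial := by
    rw [show 2 * N + 2 = 2 * N + 1 + 1 by ring, Nat.factorial_succ, Nat.factorial_succ]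
    push_cast
    ring
  have e3 : (8 * Real.pi) ^ (N + 2) = 2 ^ (N + 2) * (4 * Real.pi) ^ (N + 2) := by
    rw [← mul_pow]
    congr 1
    ring
  have e4 : (((N + 2).choose 2 : ℕ) : ℝ) = (N + 2) * (N + 1) / 2 := by
    rw [Nat.cast_choose_two]
    push_cast
    ring
  have k0 : (0 : ℝ) ≤ N := Nat.cast_nonneg N
  have n1 : (2 * (N : ℝ) + 3) ≠ 0 := by positivity
  have n2 : (2 * (N : ℝ) + 1) ≠ 0 := by positivity
  have n3 : (2 * ((N : ℝ) + 2) - 1) = 2 * N + 3 := by ring
  have n4 : (2 * ((N : ℝ) + 2) - 3) = 2 * N + 1 := by ring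
  unfold bound2 roundGB
  rw [e1, e1', e2, e2', e3, e4, one_pow, Nat.add_sub_cancel,
    show N + 2 - 1 = N + 1 by omega]
  push_cast
  rw [n3, n4, pow_succ (2 : ℝ) (N + 1)]
  field_simp
  ring

/-- The quadratic invariant is nonnegative. -/
theorem Qk_nonneg {K : T4 m} (hK : Sy K) (hm : 2 ≤ m)
    (h : 0 ≤ LR m (uu m 1 ^ (m - 2) * eL (cx K) ^ 2)) : 0 ≤ Qk K := by
  have h1 := LR_quad hK 1 (k := m - 2) (by omega)
  unfold uu at h
  rw [h1, one_pow, mul_one] at h
  have h2 : (0 : ℝ) < 2 ^ m * (2 * m - 4).factorial := by positivity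
  exact nonneg_of_mul_nonneg_right h h2

end Pool.Agent.U661.EI
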