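import Pool.Agent.U661.EI.Gen

/-!
# Mixed Gauss–Bonnet sums for the two classes
-/

set_option autoImplicit false

namespace Pool.Agent.U661.EI

open Finset Pool.Agent.Y195.HF Pool.Agent.W666.GB Pool.Agent.W669.HD Pool.Agent.U661.HS
open Pool.Agent.U661.RW Pool.Agent.R770.QC Pool.Agent.U661.RZ
open Pool.Agent.U661.RV hiding co

variable {m : ℕ} {κ : Type} [Fintype κ] {ι : Type} [Fintype ι]

/-- All mixed sums are nonnegative. -/
def GA (K : T4 m) : Prop :=
  ∀ δ : ℝ, 0 ≤ δ → ∀ x, x ≤ m → 0 ≤ LR m (uu m δ ^ x * eL (cx K) ^ (m - x))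

theorem GA.gp {K : T4 m} (h : GA K) {δ : ℝ} (hδ : 0 ≤ δ) : GP δ K :=
  fun x hx => h δ hδ x (by omega)

theorem GA.qk {K : T4 m} (h : GA K) (hK : Sy K) (hm : 2 ≤ m) : 0 ≤ Qk K := by
  have h1 := h 1 zero_le_one (m - 2) (by omega)
  rw [show m - (m - 2) = 2 by omega] at h1
  exact Qk_nonneg hK hm h1

/-- the first class -/
theorem ga_rest {D : T4 m} {A : κ → Fin m × Bool → Fin m × Bool → ℝ}
    {H : ι → Fin m × Bool → Fin m × Bool → ℝ}
    (hA : ∀ a i j, A a j i = - A a i j) (hH : ∀ a i j, H a i j = H a j i)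
    (h : RevK A H (eL (cx D))) : GA (rest D A H) :=
  fun _ hδ x hx => rest_pos hA hH h hδ (a := x) (k := m - x) (by omega)

/-- the unit -/
theorem eL_unit (δ : ℝ) : eL (cx (fun i j k l => δ * unitCurv i j k l : T4 m)) = uu m δ := by
  have h := eL_dD δ (fun _ _ _ _ => 0 : T4 m)
  have h2 : (dD δ (fun _ _ _ _ => 0 : T4 m)) = fun i j k l => δ * unitCurv i j k l := by
    funext i j k l
    simp only [dD, add_zero, uT]
  have h3 : eL (cx (fun _ _ _ _ => 0 : T4 m)) = 0 := by
    have h4 := eL_smul (m := m) 0 (cx (fun _ _ _ _ => 0 : T4 m))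
    rw [zero_smul] at h4
    rw [← h4]
    congr 1
    funext i j k l
    simp [cx]
  rw [h2, h3, add_zero] at h
  exact h

/-- the second class -/
theorem ga_two {P : T4 m} (hP : Adm P)
    {A B : Fin m × Bool → Fin m × Bool → ℝ} (hA : ∀ i j, A j i = - A i j)
    (hB : ∀ i j, B j i = - B i j) :
    GA (fun i j k l => P i j k l + (scR A i j k l + scR B i j k l) : T4 m) := by
  intro δ hδ x hx
  have hD := adm_unit (m := m) hδ
  have hA' : ∀ i j, cm A j i = - cm A i j := fun i j => by
    simp only [cm, hA i j, Complex.ofReal_neg]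
  have hB' : ∀ i j, cm B j i = - cm B i j := fun i j => by
    simp only [cm, hB i j, Complex.ofReal_neg]
  have e1 := eL_unit (m := m) δ
  have key : ∀ a b c : ℕ, a + b + c = m →
      0 ≤ LR m (uu m δ ^ a * (eL (cx P) ^ b * (eL (cx (scR A)) + eL (cx (scR B))) ^ c)) := by
    intro a b c habc
    rw [← e1]
    have hI : Inv (eL (cx (fun i j k l => δ * unitCurv i j k l : T4 m)) ^ a * eL (cx P) ^ b) :=
      (hD.inv.pow a).mul (hP.inv.pow b)
    have hc : eL (cx (fun i j k l => δ * unitCurv i j k l : T4 m)) ^ a * eL (cx P) ^ b ∈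
        cone m (a + b) := cone_mul (cone_pow hD.mem a) (cone_pow hP.mem b)
    have h := pos_main hA' hB' (cj_cm A) (cj_cm B) hI hc (N := c) (by omega)
    rw [← LR_apply] at h
    set D0 := eL (cx (fun i j k l => δ * unitCurv i j k l : T4 m)) with hD0
    have e2 : D0 ^ a * (eL (cx P) ^ b * (eL (cx (scR A)) + eL (cx (scR B))) ^ c) =
        ((2 : ℝ) ^ c) • ((qi (cm A) + qi (cm B)) ^ c * (D0 ^ a * eL (cx P) ^ b)) := by
      rw [eL_scR, eL_scR, ← smul_add, smul_pow, ← Complex.coe_smul]
      push_cast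
      simp only [Algebra.smul_def]
      ring
    rw [e2, map_smul, smul_eq_mul]
    positivity
  have hsum : eL (cx (fun i j k l => P i j k l + (scR A i j k l + scR B i j k l) :
      T4 m)) = eL (cx P) + (eL (cx (scR A)) + eL (cx (scR B))) := by
    rw [← eL_add (cx (scR A)), ← eL_add (cx P)]
    congr 1
    funext i j k l
    simp only [cx]
    push_cast
    rfl
  rw [hsum, add_pow, Finset.mul_sum, map_sum]
  refine Finset.sum_nonneg fun j hj => ?_
  rw [Finset.mem_range] at hj
  have h3 := key x j (m - x - j) (by omega)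
  have e2 : uu m δ ^ x * (eL (cx P) ^ j * (eL (cx (scR A)) + eL (cx (scR B))) ^ (m - x - j) *
      (((m - x).choose j : ℕ) : Zc (I2 m → ℂ))) =
      (((m - x).choose j : ℕ) : ℝ) • (uu m δ ^ x * (eL (cx P) ^ j *
        (eL (cx (scR A)) + eL (cx (scR B))) ^ (m - x - j))) := by
    simp only [Algebra.smul_def, map_natCast]
    ring
  rw [e2, map_smul, smul_eq_mul]
  positivity

variable {V : Type} [NormedAddCommGroup V] [InnerProductSpace ℝ V]

theorem restT_curv {R : V → V → V → V → ℝ} (hR : AlgCurv R) (δ : ℝ) : AlgCurv (restT δ R) := by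
  have h1 := comb_curv hR (unit_curv (V := V) δ) (-1) (-1)
  have e1 : restT δ R = fun x y z w => (-1) * R x y z w + (-1) * (δ * unitT x y z w) := by
    funext x y z w
    simp only [restT]
    ring
  rw [e1]
  exact h1

/-- All mixed sums are nonnegative in the two classes. -/
theorem cone_ga (e : OrthonormalBasis (Fin m × Bool) ℝ V) {δ : ℝ} {R : V → V → V → V → ℝ}
    (h : NegCone δ R) : GA (cp e (restT δ R) : T4 m) := by
  obtain ⟨hR, ⟨n, q, A, H, D, hA, hH, hr, rfl⟩ | ⟨A, B, hA, hB, hn⟩⟩ := h
  · have hH' : ∀ b, HS.SymForm (H b) := fun b => RD.sym_iff (hH b)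
    have hr' := hr.old
    have h1 := ga_rest (fun a i j => (hA a).anti _ _) (fun b i j => (hH' b).symm _ _)
      (hr'.revK e hA hH')
    have e1 : (cp e (restT δ (negT (RD.full (RD.plus δ D) A H))) : T4 m) =
        rest (cp e D) (fun a i j => A a (e i) (e j)) (fun b i j => H b (e i) (e j)) := by
      have h2 := cp_full e δ A H D
      funext i j k l
      have h3 := congrFun (congrFun (congrFun (congrFun h2 i) j) k) l
      have h4 : (cp e (RW.full (RZ.plus δ D) A H) : T4 m) i j k l =
        cp e (RD.full (RD.plus δ D) A H) i j k l := rfl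
      rw [h4] at h3
      have h5 := cp_unit e i j k l
      simp only [cp, dD, uT] at h3
      simp only [cp, restT, negT, h3, h5]
      ring
    rw [e1]
    exact h1
  · set P : V → V → V → V → ℝ := negT (addT (addT (addT R fun x y z w =>
      δ * unitT x y z w) (skewCurv A)) (skewCurv B)) with hP
    have hPc : AlgCurv P :=
      Y195.HF.neg_curv (add_curv (add_curv (add_curv hR (unit_curv δ)) hA.curv) hB.curv)
    have h1 := ga_two (adm_cp e hPc hn) (A := fun i j => A (e i) (e j))
      (B := fun i j => B (e i) (e j)) (fun i j => hA.anti _ _) (fun i j => hB.anti _ _)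
    have e1 : (cp e (restT δ R) : T4 m) = fun i j k l => cp e P i j k l +
        (scR (fun i j => A (e i) (e j)) i j k l + scR (fun i j => B (e i) (e j)) i j k l) := by
      funext i j k l
      simp only [cp, restT, hP, negT, addT, skewCurv, scR]
      ring
    rw [e1]
    exact h1

/-- Mixed sums in terms of the functional. -/
theorem mix_LR (e : OrthonormalBasis (Fin m × Bool) ℝ V) (K : V → V → V → V → ℝ) {j : ℕ}
    (hj : j ≤ m) : mixGB e j K = LR m (uu m 1 ^ (m - j) * eL (cx (cp e K)) ^ j) := by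
  classical
  set C : Fin m → T4 m := fun b => if (b : ℕ) < j then cp e K else
    (fun i j k l => (1 : ℝ) * unitCurv i j k l) with hC
  have h1 : mixGB e j K = gm C := by
    unfold mixGB gm
    refine Finset.sum_congr rfl fun σ _ => Finset.sum_congr rfl fun τ _ => ?_
    congr 1
    refine Finset.prod_congr rfl fun b _ => ?_
    simp only [hC]
    by_cases hb : (b : ℕ) < j
    · rw [if_pos hb, if_pos hb]
      rfl
    · rw [if_neg hb, if_neg hb, one_mul, cp_unit]
  have h2 := LF_el (fun b => cx (C b))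
  rw [gmC_cx] at h2
  have h3 : gm C = LR m (∏ b, eL (cx (C b))) := by
    rw [LR_apply]
    have h4 : (∏ b, eL (cx (C b))) = ∏ b, el (th m false) (th m true) (cx (C b)) := rfl
    rw [h4, h2, Complex.ofReal_re]
  have h5 : (∏ b, eL (cx (C b))) = uu m 1 ^ (m - j) * eL (cx (cp e K)) ^ j := by
    have h6 : ∀ b : Fin m, eL (cx (C b)) = if (b : ℕ) < j then eL (cx (cp e K)) else uu m 1 := by
      intro b
      simp only [hC]
      by_cases hb : (b : ℕ) < j
      · rw [if_pos hb, if_pos hb]
      · rw [if_neg hb, if_neg hb, eL_unit]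
    have c1 : (univ.filter fun b : Fin m => (b : ℕ) < j).card = j := by
      rw [Fin.card_filter_val_lt]
      exact min_eq_right hj
    have c2 : (univ.filter fun b : Fin m => ¬ (b : ℕ) < j).card = m - j := by
      have := Finset.card_filter_add_card_filter_not (s := (univ : Finset (Fin m)))
        (fun b : Fin m => (b : ℕ) < j)
      rw [c1, Finset.card_univ, Fintype.card_fin] at this
      omega
    simp only [h6]
    rw [Finset.prod_ite, Finset.prod_const, Finset.prod_const, c1, c2]
    ring
  rw [h1, h3, h5]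

end Pool.Agent.U661.EI
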