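import Pool.Agent.U661.EI.Gen2

/-!
# The theorems for general tensors
-/

set_option autoImplicit false

namespace Pool.Agent.U661.EI

open Finset MeasureTheory Pool.Agent.Y195.HF Pool.Agent.W666.GB Pool.Agent.W669.HD
open Pool.Agent.U661.HS Pool.Agent.U661.RW Pool.Agent.R770.QC Pool.Agent.U661.RZ
open Pool.Agent.U661.RV hiding co

variable {m : ℕ} {V : Type} [NormedAddCommGroup V] [InnerProductSpace ℝ V]

theorem uu_pow (δ : ℝ) (k : ℕ) : (uu m δ ^ k : Zc (I2 m → ℂ)) = (δ ^ k : ℝ) • uu m 1 ^ k := by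
  have h1 : (uu m δ : Zc (I2 m → ℂ)) = δ • uu m 1 := by
    unfold uu
    rw [smul_smul]
    congr 1
    ring
  rw [h1, smul_pow]

/-- The expansion of the Gauss–Bonnet–Chern integrand. -/
theorem expansion (e : OrthonormalBasis (Fin m × Bool) ℝ V) (δ : ℝ) (R : V → V → V → V → ℝ) :
    (-1) ^ m * gbc e R = 1 / ((8 * Real.pi) ^ m * m.factorial) *
      ∑ j ∈ Finset.range (m + 1), m.choose j * δ ^ (m - j) * mixGB e j (restT δ R) := by
  have hcp : cp e (negT R) = dD δ (cp e (restT δ R)) := by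
    funext i j k l
    have h2 := cp_unit e i j k l
    simp only [dD, cp, restT, negT, uT, h2]
    ring
  rw [gbc_eq, hcp, gm_LR, eL_dD]
  congr 1
  have h1 : (-2 * δ : ℝ) • ff false true (idM : Mt m) ^ 2 = uu m δ := rfl
  rw [h1, add_comm, add_pow, map_sum]
  refine Finset.sum_congr rfl fun j hj => ?_
  rw [Finset.mem_range] at hj
  rw [mix_LR e (restT δ R) (by omega : j ≤ m)]
  have e2 : eL (cx (cp e (restT δ R))) ^ j * uu m δ ^ (m - j) *
      ((m.choose j : ℕ) : Zc (I2 m → ℂ)) =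
      (((m.choose j : ℕ) : ℝ) * δ ^ (m - j)) •
        (uu m 1 ^ (m - j) * eL (cx (cp e (restT δ R))) ^ j) := by
    rw [uu_pow]
    simp only [Algebra.smul_def, map_natCast, map_mul, map_pow]
    ring
  rw [e2, map_smul, smul_eq_mul]

/-- The pointwise theorem. -/
theorem pointwise2 (e : OrthonormalBasis (Fin m × Bool) ℝ V) (hm : 2 ≤ m) {δ : ℝ} (hδ : 0 ≤ δ)
    {R : V → V → V → V → ℝ} (h : NegCone δ R) :
    (∀ j, j ≤ m → 0 ≤ mixGB e j (restT δ R)) ∧ 0 ≤ scal e (restT δ R) ∧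
      0 ≤ secondGB e (restT δ R) ∧ roundGB m δ ≤ bound2 e δ R ∧
      bound2 e δ R ≤ (-1) ^ m * gbc e R := by
  have hga := cone_ga e h
  have hK := restT_curv h.1 δ
  have h1 : 0 ≤ scal e (restT δ R) := by
    have h2 := hga 1 zero_le_one (m - 1) (by omega)
    rw [show m - (m - 1) = 1 by omega, pow_one] at h2
    have h3 := LR_lin (cp e (restT δ R)) 1 (k := m - 1) (by omega)
    unfold uu at h2
    rw [h3, one_pow, mul_one, tr4_curv e hK] at h2
    have h4 : (0 : ℝ) < 2 ^ (m - 1) * (2 * m - 2).factorial := by positivity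
    have h5 := nonneg_of_mul_nonneg_right h2 h4
    linarith
  have h2 : 0 ≤ secondGB e (restT δ R) := hga.qk (cp_sy e hK) hm
  refine ⟨fun j hj => ?_, h1, h2, ?_, gen_gbc e hm h.1 (hga.gp hδ)⟩
  · rw [mix_LR e (restT δ R) hj]
    have h3 := hga 1 zero_le_one (m - j) (by omega)
    rwa [show m - (m - j) = j by omega] at h3
  · have hm2 : (2 : ℝ) ≤ m := by exact_mod_cast hm
    have h3 : (0 : ℝ) < 2 * m - 3 := by linarith
    have h4 : (0 : ℝ) < 2 * m - 1 := by linarith
    have h5 : 0 < roundGB m 1 := roundGB_pos one_pos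
    have h6 : roundGB m δ = roundGB m 1 * δ ^ m := by
      unfold roundGB
      rw [one_pow, mul_one]
    have h7 : 0 ≤ δ ^ (m - 1) * scal e (restT δ R) / (2 * (2 * m - 1)) := by positivity
    have h8 : 0 ≤ δ ^ (m - 2) * secondGB e (restT δ R) / (8 * (2 * m - 1) * (2 * m - 3)) := by
      positivity
    rw [h6]
    unfold bound2
    refine mul_le_mul_of_nonneg_left ?_ h5.le
    linarith

section field

variable {M : Type} [MeasurableSpace M] (μ : Measure M) (K : CurvField m M) (δ : M → ℝ)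

/-- The integrated inequality and the strict sign. -/
theorem integral2 (hm : 2 ≤ m) (h : ∀ p, 0 ≤ δ p ∧ NegCone (δ p) (K.R p))
    (hi : Integrable K.gb μ) :
    ∫ p, bound2 (K.e p) (δ p) (K.R p) ∂μ ≤ (-1) ^ m * ∫ p, K.gb p ∂μ ∧
      (μ {p | 0 < δ p} ≠ 0 → 0 < (-1) ^ m * ∫ p, K.gb p ∂μ) := by
  have h1 : ∀ p, _ := fun p => pointwise2 (K.e p) hm (h p).1 (h p).2
  have h2 : ∀ p, roundGB m (δ p) ≤ (-1) ^ m * K.gb p := fun p =>
    (h1 p).2.2.2.1.trans (h1 p).2.2.2.2
  have h3 : ∀ p, 0 ≤ (-1) ^ m * K.gb p := fun p => (roundGB_nonneg (h p).1).trans (h2 p)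
  constructor
  · rw [← integral_const_mul]
    exact integral_mono_of_nonneg (Filter.Eventually.of_forall fun p =>
      (roundGB_nonneg (h p).1).trans (h1 p).2.2.2.1)
      (hi.const_mul _) (Filter.Eventually.of_forall fun p => (h1 p).2.2.2.2)
  · intro hμ
    rw [← integral_const_mul]
    rw [integral_pos_iff_support_of_nonneg h3 (hi.const_mul _)]
    refine pos_iff_ne_zero.2 fun h0 => hμ (measure_mono_null (fun p hp => ?_) h0)
    have h4 : 0 < roundGB m (δ p) := roundGB_pos hp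
    have h5 : 0 < (-1) ^ m * K.gb p := lt_of_lt_of_le h4 (h2 p)
    exact h5.ne'

end field

end Pool.Agent.U661.EI
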