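import Pool.Agent.U661.EI.GenFin

/-!
# All Gauss–Bonnet curvatures
-/

set_option autoImplicit false

namespace Pool.Agent.U661.EI

open Finset MeasureTheory Pool.Agent.Y195.HF Pool.Agent.W666.GB Pool.Agent.W669.HD
open Pool.Agent.U661.HS Pool.Agent.U661.RW Pool.Agent.R770.QC Pool.Agent.U661.RZ
open Pool.Agent.U661.RV hiding co

variable {m : ℕ} {V : Type} [NormedAddCommGroup V] [InnerProductSpace ℝ V]

/-- The expansion of the mixed sums of `-R`. -/
theorem expansionJ (e : OrthonormalBasis (Fin m × Bool) ℝ V) (δ : ℝ) (R : V → V → V → V → ℝ)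
    {j : ℕ} (hj : j ≤ m) :
    mixGB e j (negT R) =
      ∑ i ∈ Finset.range (j + 1), j.choose i * δ ^ (j - i) * mixGB e i (restT δ R) := by
  have hcp : cp e (negT R) = dD δ (cp e (restT δ R)) := by
    funext i j k l
    have h2 := cp_unit e i j k l
    simp only [dD, cp, restT, negT, uT, h2]
    ring
  rw [mix_LR e _ hj, hcp, eL_dD]
  have h1 : (-2 * δ : ℝ) • ff false true (idM : Mt m) ^ 2 = uu m δ := rfl
  rw [h1, add_comm, add_pow, Finset.mul_sum, map_sum]
  refine Finset.sum_congr rfl fun i hi => ?_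
  rw [Finset.mem_range] at hi
  rw [mix_LR e (restT δ R) (by omega : i ≤ m)]
  have e2 : uu m 1 ^ (m - j) * (eL (cx (cp e (restT δ R))) ^ i * uu m δ ^ (j - i) *
      ((j.choose i : ℕ) : Zc (I2 m → ℂ))) =
      (((j.choose i : ℕ) : ℝ) * δ ^ (j - i)) •
        (uu m 1 ^ (m - i) * eL (cx (cp e (restT δ R))) ^ i) := by
    rw [uu_pow δ (j - i), show m - i = (m - j) + (j - i) by omega, pow_add]
    simp only [Algebra.smul_def, map_natCast, map_mul, map_pow]
    ring
  rw [e2, map_smul, smul_eq_mul]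

/-- the Gauss–Bonnet–Chern integrand as a mixed sum -/
theorem gbc_mix (e : OrthonormalBasis (Fin m × Bool) ℝ V) (R : V → V → V → V → ℝ) :
    gbc e R = 1 / ((8 * Real.pi) ^ m * m.factorial) * mixGB e m R := by
  rw [gbc_gm, mix_LR e R le_rfl]
  congr 1
  have h := mix_LR e R (le_refl m)
  rw [← h]
  unfold mixGB gm
  refine Finset.sum_congr rfl fun σ _ => Finset.sum_congr rfl fun τ _ => ?_
  congr 1
  refine Finset.prod_congr rfl fun b _ => ?_
  rw [if_pos b.2]
  rfl

theorem mix_zero (e : OrthonormalBasis (Fin m × Bool) ℝ V) (K : V → V → V → V → ℝ) :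
    mixGB e 0 K = (8 * Real.pi) ^ m * m.factorial * roundGB m 1 := by
  have h0 : roundGB m 1 = gbc e (fun x y z w => 1 * unitT x y z w) := by
    rw [← gbc_unit e, RV.gbc_neg]
  have h1 : gbc e (fun x y z w => 1 * unitT x y z w) =
      1 / ((8 * Real.pi) ^ m * m.factorial) * mixGB e 0 K := by
    rw [gbc_mix]
    congr 1
    unfold mixGB
    refine Finset.sum_congr rfl fun σ _ => Finset.sum_congr rfl fun τ _ => ?_
    congr 1
    refine Finset.prod_congr rfl fun b _ => ?_
    rw [if_pos b.2, if_neg (Nat.not_lt_zero _), one_mul]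
  have hπ := Real.pi_pos
  have h2 : (8 * Real.pi) ^ m * (m.factorial : ℝ) ≠ 0 := by positivity
  rw [h0, h1]
  field_simp

theorem mix_zero_pos (e : OrthonormalBasis (Fin m × Bool) ℝ V) (K : V → V → V → V → ℝ) :
    0 < mixGB e 0 K := by
  rw [mix_zero]
  have h5 : 0 < roundGB m 1 := roundGB_pos one_pos
  have hπ := Real.pi_pos
  positivity

/-- All Gauss–Bonnet curvatures of `-R` are at least those of the curvature `δ`. -/
theorem lovelock (e : OrthonormalBasis (Fin m × Bool) ℝ V) {δ : ℝ} (hδ : 0 ≤ δ)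
    {R : V → V → V → V → ℝ} (h : NegCone δ R) {j : ℕ} (hj : j ≤ m) :
    δ ^ j * mixGB e 0 unitT ≤ mixGB e j (negT R) := by
  have hga := cone_ga e h
  have hp : ∀ i, i ≤ m → 0 ≤ mixGB e i (restT δ R) := by
    intro i hi
    rw [mix_LR e (restT δ R) hi]
    have h3 := hga 1 zero_le_one (m - i) (by omega)
    rwa [show m - (m - i) = i by omega] at h3
  rw [expansionJ e δ R hj, Finset.sum_range_succ']
  have h1 : 0 ≤ ∑ i ∈ Finset.range j, ((j.choose (i + 1) : ℕ) : ℝ) * δ ^ (j - (i + 1)) *
      mixGB e (i + 1) (restT δ R) := by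
    refine Finset.sum_nonneg fun i hi => ?_
    rw [Finset.mem_range] at hi
    have := hp (i + 1) (by omega)
    positivity
  have h2 : mixGB e 0 (restT δ R) = mixGB e 0 unitT := by rw [mix_zero, mix_zero]
  rw [h2, Nat.choose_zero_right, Nat.cast_one, one_mul, Nat.sub_zero]
  linarith

/-- Sectional curvature in the second class. -/
theorem two_sec {δ : ℝ} {R : V → V → V → V → ℝ} (h : TwoSkew δ R) {x y : V} (hx : ‖x‖ = 1)
    (hy : ‖y‖ = 1) (hxy : inner ℝ x y = 0) : R x y x y ≤ -δ := by
  obtain ⟨A, B, hA, hB, hn⟩ := h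
  have h1 := hn 1 (fun _ => x) (fun _ => y)
  simp only [Finset.univ_unique, Finset.sum_singleton] at h1
  have z1 : A x x = 0 := by have := hA.anti x x; linarith
  have z2 : B x x = 0 := by have := hB.anti x x; linarith
  have h3 : skewCurv A x y x y = 3 * A x y ^ 2 := by
    simp only [skewCurv]
    rw [hA.anti x y, z1]
    ring
  have h4 : skewCurv B x y x y = 3 * B x y ^ 2 := by
    simp only [skewCurv]
    rw [hB.anti x y, z2]
    ring
  have h5 : unitT x y x y = 1 := by
    simp only [unitT, real_inner_self_eq_norm_sq, hx, hy, hxy, real_inner_comm x y]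
    norm_num
  simp only [addT, negT, h3, h4, h5] at h1
  have := sq_nonneg (A x y)
  have := sq_nonneg (B x y)
  linarith

end Pool.Agent.U661.EI
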