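import Pool.Agent.U661.EI.Quad

/-!
# The inequality with the quadratic term
-/

set_option autoImplicit false

namespace Pool.Agent.U661.EI

open Finset Pool.Agent.Y195.HF Pool.Agent.W666.GB Pool.Agent.W669.HD Pool.Agent.U661.HS
open Pool.Agent.U661.RW Pool.Agent.R770.QC Pool.Agent.R770.NS Pool.Agent.U661.RZ
open Pool.Agent.U661.RV hiding co

variable {m : ℕ} {κ : Type} [Fintype κ] {ι : Type} [Fintype ι]

theorem LR_quad {K : T4 m} (hK : Sy K) (δ : ℝ) {k : ℕ} (hk : k + 2 = m) :
    LR m (((-2 * δ : ℝ) • ff false true (idM : Mt m) ^ 2) ^ k * eL (cx K) ^ 2) =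
      2 ^ m * δ ^ k * (2 * m - 4).factorial * Qk K := by
  have h := quad_term hK
  have e0 : 2 * m - 4 = 2 * k := by omega
  have h1 : ((-2 * δ : ℝ) • ff false true (idM : Mt m) ^ 2) ^ k * eL (cx K) ^ 2 =
      ((-2 * δ) ^ k : ℝ) • (ff false true (idM : Mt m) ^ (2 * m - 4) *
        (eL (cx K) * eL (cx K))) := by
    rw [smul_pow, ← pow_mul, smul_mul_assoc, e0, sq (eL (cx K))]
  rw [h1, map_smul, LR_apply, ← Lf_apply, h, smul_eq_mul]
  have h2 : (4 * (((2 * m - 4).factorial : ℂ) * (-1) ^ m) * (Qk K : ℝ)) =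
      ((4 * (((2 * m - 4).factorial : ℝ) * (-1) ^ m) * Qk K : ℝ) : ℂ) := by
    push_cast
    rfl
  rw [h2, Complex.ofReal_re]
  have h3 : (-2 * δ) ^ k * (-1 : ℝ) ^ k = 2 ^ k * δ ^ k := by
    rw [← mul_pow, ← mul_pow]
    congr 1
    ring
  have h5 : (-1 : ℝ) ^ m = (-1) ^ k := by
    rw [← hk, pow_add]
    norm_num
  have h6 : (2 : ℝ) ^ m = 2 ^ k * 4 := by
    rw [← hk, pow_add]
    norm_num
  rw [h5, h6]
  linear_combination (4 * ((2 * m - 4).factorial : ℝ) * Qk K) * h3

/-- the element of the unit tensor -/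
noncomputable def uu (m : ℕ) (δ : ℝ) : Zc (I2 m → ℂ) :=
  (-2 * δ : ℝ) • ff false true (idM : Mt m) ^ 2

/-- The mixed Gauss–Bonnet sums of order at least three are nonnegative. -/
def GP (δ : ℝ) (K : T4 m) : Prop :=
  ∀ x, x + 3 ≤ m → 0 ≤ LR m (uu m δ ^ x * eL (cx K) ^ (m - x))

/-- The algebraic inequality with the terms of order one and two. -/
theorem gm_quad {K : T4 m} (hK : Sy K) {δ : ℝ} (hp : GP δ K) {k : ℕ} (hk : k + 2 = m) :
    gm (fun _ : Fin m => (fun i j k l => δ * (uT : T4 m) i j k l : T4 m)) +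
      m * (2 ^ (k + 1) * δ ^ (k + 1) * (2 * m - 2).factorial * tr4 K) +
      m.choose 2 * (2 ^ m * δ ^ k * (2 * m - 4).factorial * Qk K) ≤
      gm (fun _ : Fin m => dD δ K) := by
  set u : Zc (I2 m → ℂ) := (-2 * δ : ℝ) • ff false true (idM : Mt m) ^ 2 with hu
  have huu : uu m δ = u := rfl
  have e1 : eL (cx (fun i j k l => δ * (uT : T4 m) i j k l : T4 m)) = u := by
    have h := eL_dD δ (fun _ _ _ _ => 0 : T4 m)
    have h2 : (dD δ (fun _ _ _ _ => 0 : T4 m)) = fun i j k l => δ * (uT : T4 m) i j k l := by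
      funext i j k l
      simp only [dD, add_zero]
    have h3 : eL (cx (fun _ _ _ _ => 0 : T4 m)) = 0 := by
      have h4 := eL_smul (m := m) 0 (cx (fun _ _ _ _ => 0 : T4 m))
      rw [zero_smul] at h4
      rw [← h4]
      congr 1
      funext i j k l
      simp [cx]
    rw [h2, h3, add_zero] at h
    exact h
  rw [gm_LR, gm_LR, eL_dD, e1, ← hu, add_pow, map_sum,
    ← LR_lin K δ (by omega : (k + 1) + 1 = m), ← LR_quad hK δ hk, ← hu,
    Finset.sum_range_succ]
  set Y := eL (cx K) with hY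
  have h1 : u ^ m * Y ^ (m - m) * ((m.choose m : ℕ) : Zc (I2 m → ℂ)) = u ^ m := by
    rw [Nat.sub_self, pow_zero, Nat.choose_self, Nat.cast_one, mul_one, mul_one]
  have h2 : ∑ x ∈ Finset.range m, LR m (u ^ x * Y ^ (m - x) *
      ((m.choose x : ℕ) : Zc (I2 m → ℂ))) = ∑ x ∈ Finset.range k, LR m (u ^ x * Y ^ (m - x) *
      ((m.choose x : ℕ) : Zc (I2 m → ℂ))) + m.choose 2 * LR m (u ^ k * Y ^ 2) +
        m * LR m (u ^ (k + 1) * Y) := by
    have e2 : Finset.range m = Finset.range (k + 1 + 1) := by rw [← hk]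
    rw [e2, Finset.sum_range_succ, Finset.sum_range_succ]
    congr 1
    · congr 1
      have e3 : m - k = 2 := by omega
      have e4 : m.choose k = m.choose 2 := by
        rw [← Nat.choose_symm (by omega : k ≤ m), e3]
      rw [e3, e4]
      have e5 : u ^ k * Y ^ 2 * (m.choose 2 : Zc (I2 m → ℂ)) =
          (m.choose 2 : ℝ) • (u ^ k * Y ^ 2) := by
        rw [Algebra.smul_def, map_natCast, mul_comm]
      rw [e5, map_smul, smul_eq_mul]
    · have e3 : m - (k + 1) = 1 := by omega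
      have e4 : m.choose (k + 1) = m := by
        rw [← Nat.choose_symm (by omega : k + 1 ≤ m), e3, Nat.choose_one_right]
      rw [e3, e4, pow_one]
      have e5 : u ^ (k + 1) * Y * (m : Zc (I2 m → ℂ)) = (m : ℝ) • (u ^ (k + 1) * Y) := by
        rw [Algebra.smul_def, map_natCast, mul_comm]
      rw [e5, map_smul, smul_eq_mul]
  rw [h1, h2]
  have h3 : 0 ≤ ∑ x ∈ Finset.range k, LR m (u ^ x * Y ^ (m - x) *
      ((m.choose x : ℕ) : Zc (I2 m → ℂ))) := by
    refine Finset.sum_nonneg fun x hx => ?_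
    rw [Finset.mem_range] at hx
    have h4 := hp x (by omega)
    rw [huu, ← hY] at h4
    have e2 : u ^ x * Y ^ (m - x) * ((m.choose x : ℕ) : Zc (I2 m → ℂ)) =
        ((m.choose x : ℕ) : ℝ) • (u ^ x * Y ^ (m - x)) := by
      simp only [Algebra.smul_def, map_natCast]
      ring
    rw [e2, map_smul, smul_eq_mul]
    positivity
  linarith

/-- the first class -/
theorem gp_rest {D : T4 m} {A : κ → Fin m × Bool → Fin m × Bool → ℝ}
    {H : ι → Fin m × Bool → Fin m × Bool → ℝ}
    (hA : ∀ a i j, A a j i = - A a i j) (hH : ∀ a i j, H a i j = H a j i)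
    (h : RevK A H (eL (cx D))) {δ : ℝ} (hδ : 0 ≤ δ) : GP δ (rest D A H) :=
  fun x hx => rest_pos hA hH h hδ (a := x) (k := m - x) (by omega)

/-- the second class -/
theorem gp_two {P : T4 m} (hP : Adm P)
    {A B : Fin m × Bool → Fin m × Bool → ℝ} (hA : ∀ i j, A j i = - A i j)
    (hB : ∀ i j, B j i = - B i j) {δ : ℝ} (hδ : 0 ≤ δ) :
    GP δ (fun i j k l => P i j k l + (scR A i j k l + scR B i j k l) : T4 m) := by
  intro x hx
  have hD := adm_unit (m := m) hδ
  have hA' : ∀ i j, cm A j i = - cm A i j := fun i j => by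
    simp only [cm, hA i j, Complex.ofReal_neg]
  have hB' : ∀ i j, cm B j i = - cm B i j := fun i j => by
    simp only [cm, hB i j, Complex.ofReal_neg]
  have e1 : eL (cx (fun i j k l => δ * unitCurv i j k l : T4 m)) = uu m δ := by
    have h := eL_dD δ (fun _ _ _ _ => 0 : T4 m)
    have h2 : (dD δ (fun _ _ _ _ => 0 : T4 m)) = fun i j k l => δ * unitCurv i j k l := by
      funext i j k l
      simp only [dD, add_zero, uT]
    have h3 : eL (cx (fun _ _ _ _ => 0 : T4 m)) = 0 := by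
      have h4 := eL_smul (m := m) 0 (cx (fun _ _ _ _ => 0 : T4 m))
      rw [zero_smul] at h4
      rw [← h4]
      congr 1
      funext i j k l
      simp [cx]
    rw [h2, h3, add_zero] at h
    exact h
  have key : ∀ a b c : ℕ, a + b + c = m →
      0 ≤ LR m (uu m δ ^ a * (eL (cx P) ^ b * (eL (cx (scR A)) + eL (cx (scR B))) ^ c)) := by
    intro a b c habc
    rw [← e1]
    have hI : Inv (eL (cx (fun i j k l => δ * unitCurv i j k l : T4 m)) ^ a * eL (cx P) ^ b) :=
      (hD.inv.pow a).mul (hP.inv.pow b)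
    have hc : eL (cx (fun i j k l => δ * unitCurv i j k l : T4 m)) ^ a * eL (cx P) ^ b ∈
        cone m (a + b) := cone_mul (cone_pow hD.mem a) (cone_pow hP.mem b)
    have h := pos_main hA' hB' (cj_cm A) (cj_cm B) hI hc (N := c) (by omega)
    rw [← LR_apply] at h
    set D0 := eL (cx (fun i j k l => δ * unitCurv i j k l : T4 m)) with hD0
    have e2 : D0 ^ a * (eL (cx P) ^ b * (eL (cx (scR A)) + eL (cx (scR B))) ^ c) =
        ((2 : ℝ) ^ c) • ((qi (cm A) + qi (cm B)) ^ c * (D0 ^ a * eL (cx P) ^ b)) := by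
      rw [eL_scR, eL_scR, ← smul_add, smul_pow, ← Complex.coe_smul]
      push_cast
      simp only [Algebra.smul_def]
      ring
    rw [e2, map_smul, smul_eq_mul]
    positivity
  have hsum : eL (cx (fun i j k l => P i j k l + (scR A i j k l + scR B i j k l) :
      T4 m)) = eL (cx P) + (eL (cx (scR A)) + eL (cx (scR B))) := by
    rw [← eL_add (cx (scR A)), ← eL_add (cx P)]
    congr 1
    funext i j k l
    simp only [cx]
    push_cast
    rfl
  rw [hsum, add_pow, Finset.mul_sum, map_sum]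
  refine Finset.sum_nonneg fun j hj => ?_
  rw [Finset.mem_range] at hj
  have h3 := key x j (m - x - j) (by omega)
  have e2 : uu m δ ^ x * (eL (cx P) ^ j * (eL (cx (scR A)) + eL (cx (scR B))) ^ (m - x - j) *
      (((m - x).choose j : ℕ) : Zc (I2 m → ℂ))) =
      (((m - x).choose j : ℕ) : ℝ) • (uu m δ ^ x * (eL (cx P) ^ j *
        (eL (cx (scR A)) + eL (cx (scR B))) ^ (m - x - j))) := by
    simp only [Algebra.smul_def, map_natCast]
    ring
  rw [e2, map_smul, smul_eq_mul]
  positivity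

end Pool.Agent.U661.EI
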