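import Pool.Agent.U661.EI.GenLov
import Pool.Agent.U908.HS.Fin

/-!
# The moment estimates for the mixed Gauss–Bonnet sums
-/

set_option autoImplicit false

namespace Pool.Agent.U661.EI

open Finset Pool.Agent.Y195.HF Pool.Agent.W666.GB Pool.Agent.W669.HD Pool.Agent.U661.HS
open Pool.Agent.U661.RW Pool.Agent.R770.QC Pool.Agent.U661.RZ
open Pool.Agent.U661.RV hiding co

variable {m : ℕ} {V : Type} [NormedAddCommGroup V] [InnerProductSpace ℝ V]

/-- comparison of coefficients -/
theorem coef_eq {a b : ℕ → ℝ} (h : ∀ t : ℝ, ∑ j ∈ range (m + 1), t ^ (m - j) * a j =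
    ∑ j ∈ range (m + 1), t ^ (m - j) * b j) {j : ℕ} (hj : j ≤ m) : a j = b j := by
  have hP : (∑ j ∈ range (m + 1), Polynomial.monomial (m - j) (a j)) =
      ∑ j ∈ range (m + 1), Polynomial.monomial (m - j) (b j) := by
    apply Polynomial.funext
    intro t
    simp only [Polynomial.eval_finsetSum, Polynomial.eval_monomial]
    have := h t
    simpa only [mul_comm] using this
  have key : ∀ c : ℕ → ℝ, (∑ j ∈ range (m + 1), Polynomial.monomial (m - j) (c j)).coeff (m - j) =
      c j := by
    intro c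
    simp only [Polynomial.finsetSum_coeff, Polynomial.coeff_monomial]
    rw [Finset.sum_eq_single_of_mem j (Finset.mem_range.2 (by omega))]
    · rw [if_pos rfl]
    · intro i hi hne
      rw [Finset.mem_range] at hi
      rw [if_neg (by omega)]
  rw [← key a, ← key b, hP]

/-- The terms of the expansion in `W666.GB`. -/
noncomputable def ZT (e : OrthonormalBasis (Fin m × Bool) ℝ V) (K : V → V → V → V → ℝ)
    (T : Finset (Fin m)) : ℝ :=
  ∑ σ : Equiv.Perm (Fin m × Bool),
    yf (pb (Cl fun i j k l => K (e i) (e j) (e k) (e l)) (σ ∘ iT T))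

theorem mix_Z (e : OrthonormalBasis (Fin m × Bool) ℝ V) {K : V → V → V → V → ℝ}
    (hK : AlgCurv K) {j : ℕ} (hj : j ≤ m) :
    m.choose j * mixGB e j K = 2 ^ m * ∑ T ∈ powersetCard j (univ : Finset (Fin m)), ZT e K T := by
  have hπ := Real.pi_pos
  refine coef_eq (m := m) (a := fun j => m.choose j * mixGB e j K)
    (b := fun j => 2 ^ m * ∑ T ∈ powersetCard j (univ : Finset (Fin m)), ZT e K T) (fun t => ?_) hj
  set Rt : V → V → V → V → ℝ := fun x y z w => -(K x y z w + t * unitT x y z w) with hRt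
  have hRc : AlgCurv Rt := by
    have h1 := comb_curv hK (unit_curv (V := V) t) (-1) (-1)
    have e1 : Rt = fun x y z w => (-1) * K x y z w + (-1) * (t * unitT x y z w) := by
      funext x y z w
      simp only [hRt]
      ring
    rw [e1]
    exact h1
  have hr : restT t Rt = K := by
    funext x y z w
    simp only [restT, hRt]
    ring
  have h1 := expansion e t Rt
  rw [hr] at h1
  have h2 := neg_gbc_eq e hRc t
  have hEE : EE e Rt t = fun i j k l => K (e i) (e j) (e k) (e l) := by
    funext i j k l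
    have h3 := cp_unit e i j k l
    simp only [EE, hRt]
    rw [← h3]
    ring
  rw [hEE, Yf_expand, h1, Fintype.card_fin] at h2
  have hc : (1 / ((8 * Real.pi) ^ m * (m.factorial : ℝ))) ≠ 0 := by positivity
  have h3 : ∑ j ∈ Finset.range (m + 1), (m.choose j : ℝ) * t ^ (m - j) * mixGB e j K =
      2 ^ m * ∑ T : Finset (Fin m), t ^ (m - T.card) * ZT e K T := by
    refine mul_left_cancel₀ hc ?_
    rw [h2]
    unfold ZT
    ring
  have h4 : ∑ T : Finset (Fin m), t ^ (m - T.card) * ZT e K T =
      ∑ j ∈ Finset.range (m + 1), t ^ (m - j) *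
        ∑ T ∈ powersetCard j (univ : Finset (Fin m)), ZT e K T := by
    rw [← Finset.powerset_univ, Finset.sum_powerset]
    rw [Finset.card_univ, Fintype.card_fin]
    refine Finset.sum_congr rfl fun j _ => ?_
    rw [Finset.mul_sum]
    refine Finset.sum_congr rfl fun T hT => ?_
    rw [(Finset.mem_powersetCard.1 hT).2]
  rw [h4] at h3
  calc _ = ∑ j ∈ Finset.range (m + 1), (m.choose j : ℝ) * t ^ (m - j) * mixGB e j K :=
        Finset.sum_congr rfl fun j _ => by ring
    _ = _ := h3
    _ = _ := by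
      rw [Finset.mul_sum]
      exact Finset.sum_congr rfl fun j _ => by ring

/-- **The bound of the mixed sums.** -/
theorem mix_bound (e : OrthonormalBasis (Fin m × Bool) ℝ V) {K : V → V → V → V → ℝ}
    (hK : AlgCurv K) (hs : scal e K = 0) {x : ℝ} (hx : 0 ≤ x)
    (h4 : ∑ i, ∑ j, ∑ k, ∑ l, K (e i) (e j) (e k) (e l) ^ 2 ≤ (x * (2 * m)) ^ 2)
    (h2 : ∑ j, ∑ l, (∑ i, K (e i) (e j) (e i) (e l)) ^ 2 ≤ (x * (2 * m)) ^ 2)
    {j : ℕ} (hj : 0 < j) (hjm : j ≤ m) :
    |m.choose j * mixGB e j K| ≤ 2 ^ m * ((2 * m).factorial : ℝ) *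
      (3 / 10 * (5 * 10 ^ 5 * x) ^ j) := by
  rw [mix_Z e hK hjm, abs_mul, abs_of_pos (by positivity : (0 : ℝ) < 2 ^ m), mul_assoc]
  refine mul_le_mul_of_nonneg_left ?_ (by positivity)
  have hE : Sym4 (fun i j k l => K (e i) (e j) (e k) (e l)) := by
    have h := EE_sym e (R := fun x y z w => (-1) * K x y z w + 0 * (0 * unitT x y z w))
      (comb_curv hK (unit_curv (V := V) 0) (-1) 0) 0
    have e1 : EE e (fun x y z w => (-1) * K x y z w + 0 * (0 * unitT x y z w)) 0 =
        fun i j k l => K (e i) (e j) (e k) (e l) := by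
      funext i j k l
      simp only [EE]
      ring
    rw [e1] at h
    exact h
  have hb : ∀ T ∈ powersetCard j (univ : Finset (Fin m)), |ZT e K T| ≤
      (2 * m).factorial / ((2 * m).descFactorial (2 * j) *
        (2 * j).factorial) * (j.factorial * (21600 * Real.exp 1 * (j : ℝ) ^ 2 *
          (x * (2 * m))) ^ j) := by
    intro T hT
    have hc : T.card = j := (Finset.mem_powersetCard.1 hT).2
    have h := term_bound (B := Fin m) hE (by
      have : ∑ i, ricc (fun i j k l => K (e i) (e j) (e k) (e l)) i i = scal e K := by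
        unfold ricc scal
        rw [Finset.sum_comm]
      rw [this, hs]) (a := x * (2 * m)) (by positivity) h4 h2 T (by rw [hc]; exact hj)
    rw [Fintype.card_fin, hc] at h
    exact h
  refine (Finset.abs_sum_le_sum_abs _ _).trans ((Finset.sum_le_sum hb).trans ?_)
  rw [Finset.sum_const, Finset.card_powersetCard, Finset.card_univ, Fintype.card_fin,
    nsmul_eq_mul]
  have h5 := Pool.Agent.U908.HS.term_le2 m j hj hjm 1 x zero_le_one hx
  rw [one_pow, one_mul, one_mul] at h5
  refine h5.trans ?_
  refine mul_le_mul_of_nonneg_left ?_ (by positivity)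
  obtain ⟨c1, c2⟩ := Pool.Agent.U908.HS.consts
  refine mul_le_mul c1 (pow_le_pow_left₀ (by positivity) ?_ j) (by positivity) (by norm_num)
  refine mul_le_mul_of_nonneg_right ?_ hx
  linarith

end Pool.Agent.U661.EI
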