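import Pool.Agent.U661.RZ.Scal

/-!
# The quadratic term
-/

set_option autoImplicit false

namespace Pool.Agent.U661.EI

open Finset Pool.Agent.Y195.HF Pool.Agent.W666.GB Pool.Agent.W669.HD Pool.Agent.U661.HS
open Pool.Agent.U661.RW Pool.Agent.R770.QC Pool.Agent.R770.NS Pool.Agent.U661.RZ
open Pool.Agent.U661.RV hiding co

variable {m : ℕ}

section ring

theorem sum4 {ι R : Type} [Fintype ι] [DecidableEq ι] [AddCommGroup R] (F : ι → R) {i j a b : ι}
    (hij : i ≠ j) (hia : i ≠ a) (hib : i ≠ b) (hja : j ≠ a) (hjb : j ≠ b) (hab : a ≠ b)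
    (h : ∀ k, k ≠ i → k ≠ j → k ≠ a → k ≠ b → F k = 0) :
    ∑ k, F k = F i + F j + F a + F b := by
  rw [← Finset.sum_subset (Finset.subset_univ ({i, j, a, b} : Finset ι))]
  · rw [Finset.sum_insert (by simp [hij, hia, hib]), Finset.sum_insert (by simp [hja, hjb]),
      Finset.sum_insert (by simp [hab]), Finset.sum_singleton]
    abel
  · intro k _ hk
    simp only [Finset.mem_insert, Finset.mem_singleton, not_or] at hk
    exact h k hk.1 hk.2.1 hk.2.2.1 hk.2.2.2

variable {ι R : Type} [Fintype ι] [DecidableEq ι] [CommRing R]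

theorem six_sum (c u : ι → ι → R) (T : R)
    (hc : ∀ k l, c l k = - c k l) (hu : ∀ k l, u l k = - u k l) (hu0 : ∀ k, u k k = 0)
    {i j a b : ι} (hij : i ≠ j) (hia : i ≠ a) (hib : i ≠ b) (hja : j ≠ a) (hjb : j ≠ b)
    (hab : a ≠ b) (hT : ∀ k l, k ≠ i → k ≠ j → k ≠ a → k ≠ b → T * u k l = 0) :
    T * ∑ k, ∑ l, c k l * u k l = T * (2 * (c i j * u i j + c i a * u i a + c i b * u i b +
      c j a * u j a + c j b * u j b + c a b * u a b)) := by
  have hT' : ∀ k l, l ≠ i → l ≠ j → l ≠ a → l ≠ b → T * (c k l * u k l) = 0 := by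
    intro k l h1 h2 h3 h4
    have h5 := hT l k h1 h2 h3 h4
    rw [hu l k]
    linear_combination (- c k l) * h5
  rw [Finset.mul_sum]
  simp only [Finset.mul_sum]
  rw [sum4 (fun k => ∑ l, T * (c k l * u k l)) hij hia hib hja hjb hab]
  · rw [sum4 (fun l => T * (c i l * u i l)) hij hia hib hja hjb hab (fun l => hT' i l),
      sum4 (fun l => T * (c j l * u j l)) hij hia hib hja hjb hab (fun l => hT' j l),
      sum4 (fun l => T * (c a l * u a l)) hij hia hib hja hjb hab (fun l => hT' a l),
      sum4 (fun l => T * (c b l * u b l)) hij hia hib hja hjb hab (fun l => hT' b l)]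
    rw [hu0 i, hu0 j, hu0 a, hu0 b, hc i j, hu i j, hc i a, hu i a, hc i b, hu i b, hc j a,
      hu j a, hc j b, hu j b, hc a b, hu a b]
    ring
  · intro k h1 h2 h3 h4
    refine Finset.sum_eq_zero fun l _ => ?_
    linear_combination (c k l) * hT k l h1 h2 h3 h4

omit [Fintype ι] [DecidableEq ι] in
theorem six_mul (c c' u : ι → ι → R) (hz : ∀ x y z, u x y * u x z = 0)
    (hu : ∀ k l, u l k = - u k l) (hx : ∀ x y z w, u x y * u z w = - (u x z * u y w))
    (i j a b : ι) :
    (2 * (c i j * u i j + c i a * u i a + c i b * u i b +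
      c j a * u j a + c j b * u j b + c a b * u a b)) *
    (2 * (c' i j * u i j + c' i a * u i a + c' i b * u i b +
      c' j a * u j a + c' j b * u j b + c' a b * u a b)) =
    4 * (c i j * c' a b + c a b * c' i j - c i a * c' j b - c j b * c' i a + c i b * c' j a +
      c j a * c' i b) * (u i j * u a b) := by
  have e1 := hz i j j
  have e2 := hz i a a
  have e3 := hz i b b
  have e4 := hz j a a
  have e5 := hz j b b
  have e6 := hz a b b
  have f1 := hz i j a
  have f2 := hz i j b
  have f3 := hz i a b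
  have g1 := hz j i a
  have g2 := hz j i b
  have g3 := hz j a b
  have k1 := hz a i j
  have k2 := hz a i b
  have k3 := hz a j b
  have l1 := hz b i j
  have l2 := hz b i a
  have l3 := hz b j a
  rw [hu i j] at g1 g2
  rw [hu i a] at k1 k2
  rw [hu j a] at k1 k3
  rw [hu i b] at l1 l2
  rw [hu j b] at l1 l3
  rw [hu a b] at l2 l3
  have x1 : u i a * u j b = - (u i j * u a b) := hx i a j b
  have x2 : u i b * u j a = u i j * u a b := by
    rw [hx i b j a, hu a b]
    ring
  linear_combination 4 * (c i j * c' i j) * e1 + 4 * (c i a * c' i a) * e2 +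
    4 * (c i b * c' i b) * e3 + 4 * (c j a * c' j a) * e4 + 4 * (c j b * c' j b) * e5 +
    4 * (c a b * c' a b) * e6 +
    4 * (c i j * c' i a + c i a * c' i j) * f1 + 4 * (c i j * c' i b + c i b * c' i j) * f2 +
    4 * (c i a * c' i b + c i b * c' i a) * f3 -
    4 * (c i j * c' j a + c j a * c' i j) * g1 - 4 * (c i j * c' j b + c j b * c' i j) * g2 +
    4 * (c j a * c' j b + c j b * c' j a) * g3 +
    4 * (c i a * c' j a + c j a * c' i a) * k1 - 4 * (c i a * c' a b + c a b * c' i a) * k2 -
    4 * (c j a * c' a b + c a b * c' j a) * k3 +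
    4 * (c i b * c' j b + c j b * c' i b) * l1 + 4 * (c i b * c' a b + c a b * c' i b) * l2 +
    4 * (c j b * c' a b + c a b * c' j b) * l3 +
    4 * (c i a * c' j b + c j b * c' i a) * x1 + 4 * (c i b * c' j a + c j a * c' i b) * x2

end ring

/-- four distinct indices -/
structure Ds (i j a b : Fin m × Bool) : Prop where
  ij : i ≠ j
  ia : i ≠ a
  ib : i ≠ b
  ja : j ≠ a
  jb : j ≠ b
  ab : a ≠ b

/-- the product of the other pairs -/
noncomputable def TT (i j a b : Fin m × Bool) : Zc (I2 m → ℂ) :=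
  ∏ x ∈ (((univ.erase i).erase j).erase a).erase b, sd x

theorem TT_mul {i j a b : Fin m × Bool} (h : Ds i j a b) :
    TT i j a b * (sd i * sd j * sd a * sd b) = ∏ x, sd x := by
  unfold TT
  rw [← Finset.mul_prod_erase univ _ (Finset.mem_univ i),
    ← Finset.mul_prod_erase (univ.erase i) _ (by simp [Ne.symm h.ij] : j ∈ univ.erase i),
    ← Finset.mul_prod_erase ((univ.erase i).erase j) _
      (by simp [Ne.symm h.ia, Ne.symm h.ja] : a ∈ (univ.erase i).erase j),
    ← Finset.mul_prod_erase (((univ.erase i).erase j).erase a) _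
      (by simp [Ne.symm h.ib, Ne.symm h.jb, Ne.symm h.ab] : b ∈ ((univ.erase i).erase j).erase a)]
  ring

theorem TT_zero {i j a b k : Fin m × Bool} (h1 : k ≠ i) (h2 : k ≠ j) (h3 : k ≠ a) (h4 : k ≠ b)
    (y : I2 m → ℂ) : TT i j a b * bv (th m true k) y = 0 := by
  unfold TT
  rw [← Finset.mul_prod_erase ((((univ.erase i).erase j).erase a).erase b) _
    (by simp [h1, h2, h3, h4] : k ∈ (((univ.erase i).erase j).erase a).erase b)]
  have h : (sd k : Zc (I2 m → ℂ)) * bv (th m true k) y = 0 := bv_mul_self_right _ _ _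
  linear_combination (∏ x ∈ ((((univ.erase i).erase j).erase a).erase b).erase k, sd x) * h

/-- products of even generators -/
noncomputable def ww (i j a b : Fin m × Bool) : Zc (I2 m → ℂ) :=
  bv (th m false i) (th m false j) * bv (th m false a) (th m false b)

theorem g_pow {i j a b : Fin m × Bool} (h : Ds i j a b) :
    ff false true (idM : Mt m) ^ (2 * m - 4) * ww i j a b =
      ((2 * m - 4).factorial : Zc (I2 m → ℂ)) * (TT i j a b * ww i j a b) := by
  classical
  have hc : ((((univ.erase i).erase j).erase a).erase b : Finset (Fin m × Bool)).card =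
      2 * m - 4 := by
    rw [Finset.card_erase_of_mem (by simp [Ne.symm h.ib, Ne.symm h.jb, Ne.symm h.ab]),
      Finset.card_erase_of_mem (by simp [Ne.symm h.ia, Ne.symm h.ja]),
      Finset.card_erase_of_mem (by simp [Ne.symm h.ij]), Finset.card_erase_of_mem (by simp),
      Finset.card_univ, Fintype.card_prod, Fintype.card_fin, Fintype.card_bool]
    omega
  have h1 : (∑ x, sd x : Zc (I2 m → ℂ)) =
      (∑ x ∈ (((univ.erase i).erase j).erase a).erase b, sd x) + (sd i + sd j + sd a + sd b) := by
    rw [← Finset.add_sum_erase univ _ (Finset.mem_univ i),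
      ← Finset.add_sum_erase (univ.erase i) _ (by simp [Ne.symm h.ij] : j ∈ univ.erase i),
      ← Finset.add_sum_erase ((univ.erase i).erase j) _
        (by simp [Ne.symm h.ia, Ne.symm h.ja] : a ∈ (univ.erase i).erase j),
      ← Finset.add_sum_erase (((univ.erase i).erase j).erase a) _
        (by simp [Ne.symm h.ib, Ne.symm h.jb, Ne.symm h.ab] :
          b ∈ ((univ.erase i).erase j).erase a)]
    ring
  have z1 : (sd i : Zc (I2 m → ℂ)) * bv (th m false i) (th m false j) = 0 :=
    bv_mul_zero (Or.inl (Or.inl rfl))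
  have z2 : (sd j : Zc (I2 m → ℂ)) * bv (th m false i) (th m false j) = 0 :=
    bv_mul_zero (Or.inl (Or.inr rfl))
  have z3 : (sd a : Zc (I2 m → ℂ)) * bv (th m false a) (th m false b) = 0 :=
    bv_mul_zero (Or.inl (Or.inl rfl))
  have z4 : (sd b : Zc (I2 m → ℂ)) * bv (th m false a) (th m false b) = 0 :=
    bv_mul_zero (Or.inl (Or.inr rfl))
  have h2 : (sd i + sd j + sd a + sd b : Zc (I2 m → ℂ)) * ww i j a b = 0 := by
    unfold ww
    linear_combination bv (th m false a) (th m false b) * (z1 + z2) +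
      bv (th m false i) (th m false j) * (z3 + z4)
  rw [g_sum, h1, absorb h2, ← hc, pow_card_sum sd_sd, mul_assoc, hc]
  rfl

/-- the top coefficient -/
theorem top4 {i j a b : Fin m × Bool} (h : Ds i j a b) :
    Lf m (ff false true (idM : Mt m) ^ (2 * m - 4) * (ww i j a b *
      (bv (th m true i) (th m true j) * bv (th m true a) (th m true b)))) =
      ((2 * m - 4).factorial : ℂ) * (-1) ^ m := by
  have e1 : ww i j a b * (bv (th m true i) (th m true j) * bv (th m true a) (th m true b)) =
      sd i * sd j * sd a * sd b := by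
    unfold ww
    have h1 := z_pair (i := i) (j := j)
    have h2 := z_pair (i := a) (j := b)
    linear_combination (bv (th m false a) (th m false b) * bv (th m true a) (th m true b)) * h1 -
      (sd i * sd j) * h2
  rw [← mul_assoc, g_pow h]
  have e2 : ((2 * m - 4).factorial : Zc (I2 m → ℂ)) * (TT i j a b * ww i j a b) *
      (bv (th m true i) (th m true j) * bv (th m true a) (th m true b)) =
      (((2 * m - 4).factorial : ℕ) : ℂ) • ∏ x, sd x := by
    rw [Algebra.smul_def, map_natCast, ← TT_mul h, ← e1]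
    ring
  rw [e2, map_smul, Lf_apply, LF_diag, smul_eq_mul]

/-- the coefficient -/
def Bq (K : T4 m) (i j a b : Fin m × Bool) : ℝ :=
  K i j i j * K a b a b + K i j a b * K a b i j - K i j i a * K a b j b - K i j j b * K a b i a +
    K i j i b * K a b j a + K i j j a * K a b i b

/-- the symmetries -/
structure Sy (K : T4 m) : Prop where
  a12 : ∀ i j k l, K j i k l = - K i j k l
  a34 : ∀ i j k l, K i j l k = - K i j k l
  pr : ∀ i j k l, K k l i j = K i j k l

theorem Sy.d12 {K : T4 m} (hK : Sy K) (i k l : Fin m × Bool) : K i i k l = 0 := by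
  have := hK.a12 i i k l
  linarith

theorem Sy.d34 {K : T4 m} (hK : Sy K) (i j k : Fin m × Bool) : K i j k k = 0 := by
  have := hK.a34 i j k k
  linarith

theorem Bq_zero {K : T4 m} (hK : Sy K) {i j a b : Fin m × Bool} (h : ¬ Ds i j a b) :
    Bq K i j a b = 0 := by
  have h' : i = j ∨ i = a ∨ i = b ∨ j = a ∨ j = b ∨ a = b := by
    by_contra hc
    push Not at hc
    exact h ⟨hc.1, hc.2.1, hc.2.2.1, hc.2.2.2.1, hc.2.2.2.2.1, hc.2.2.2.2.2⟩
  unfold Bq
  rcases h' with h' | h' | h' | h' | h' | h'
  · subst h'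
    simp only [hK.d12]
    ring
  · subst h'
    rw [hK.d34, hK.d34]
    rw [hK.a34 i j i j, hK.a34 i b i j]
    ring
  · subst h'
    have e1 := hK.d34 i j i
    have e2 := hK.d34 a i i
    have e3 := hK.a34 i j i a
    have e4 := hK.a34 a i i j
    have e5 := hK.a34 i j i j
    have e6 := hK.a34 a i a i
    rw [e1, e2, e3, e4, e5, e6]
    ring
  · subst h'
    rw [hK.d34 i j j, hK.d34 j b j]
    ring
  · subst h'
    have e1 := hK.d34 a j j
    have e2 := hK.d34 i j j
    have e3 := hK.a34 a j a j
    have e4 := hK.a34 i j a j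
    rw [e1, e2, e3, e4]
    ring
  · subst h'
    simp only [hK.d12]
    ring

/-- The product of the two factors, for fixed even generators. -/
noncomputable def Pk (C : C4 m) (i j : Fin m × Bool) : Zc (I2 m → ℂ) :=
  ∑ k, ∑ l, algebraMap ℂ (Zc (I2 m → ℂ)) (C i j k l) * bv (th m true k) (th m true l)

theorem eL_Pk (C : C4 m) : eL C = ∑ i, ∑ j, bv (th m false i) (th m false j) * Pk C i j := by
  unfold eL el Pk
  refine Finset.sum_congr rfl fun i _ => Finset.sum_congr rfl fun j _ => ?_
  rw [Finset.mul_sum]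
  refine Finset.sum_congr rfl fun k _ => ?_
  rw [Finset.mul_sum]
  refine Finset.sum_congr rfl fun l _ => ?_
  rw [Algebra.smul_def]
  ring

theorem term4 {K : T4 m} (hK : Sy K) (i j a b : Fin m × Bool) :
    Lf m (ff false true (idM : Mt m) ^ (2 * m - 4) * ((bv (th m false i) (th m false j) *
      Pk (cx K) i j) * (bv (th m false a) (th m false b) * Pk (cx K) a b))) =
      4 * (((2 * m - 4).factorial : ℂ) * (-1) ^ m) * (Bq K i j a b : ℝ) := by
  classical
  by_cases h : Ds i j a b
  · set al := algebraMap ℂ (Zc (I2 m → ℂ)) with hal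
    set u : Fin m × Bool → Fin m × Bool → Zc (I2 m → ℂ) :=
      fun k l => bv (th m true k) (th m true l) with hu
    have hu1 : ∀ k l, u l k = - u k l := fun k l => bv_swap _ _
    have hu0 : ∀ k, u k k = 0 := fun k => bv_self _
    have huz : ∀ x y z, u x y * u x z = 0 := fun x y z => bv_mul_zero (Or.inl (Or.inl rfl))
    have hux : ∀ x y z w, u x y * u z w = - (u x z * u y w) := fun x y z w => bv_exch _ _ _ _
    have hT : ∀ k l, k ≠ i → k ≠ j → k ≠ a → k ≠ b → TT i j a b * u k l = 0 :=
      fun k l h1 h2 h3 h4 => TT_zero h1 h2 h3 h4 _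
    have hc : ∀ (p q k l : Fin m × Bool), al (cx K p q l k) = - al (cx K p q k l) := by
      intro p q k l
      rw [← map_neg]
      congr 1
      simp only [cx]
      rw [hK.a34 p q k l]
      push_cast
      rfl
    have s1 := six_sum (fun k l => al (cx K i j k l)) u (TT i j a b) (hc i j) hu1 hu0
      h.ij h.ia h.ib h.ja h.jb h.ab hT
    have s2 := six_sum (fun k l => al (cx K a b k l)) u (TT i j a b) (hc a b) hu1 hu0
      h.ij h.ia h.ib h.ja h.jb h.ab hT
    have s3 := six_mul (fun k l => al (cx K i j k l)) (fun k l => al (cx K a b k l)) u huz hu1 hux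
      i j a b
    beta_reduce at s1 s2 s3
    have e1 : (∑ k, ∑ l, al (cx K i j k l) * u k l) = Pk (cx K) i j := rfl
    have e2 : (∑ k, ∑ l, al (cx K a b k l) * u k l) = Pk (cx K) a b := rfl
    rw [e1] at s1
    rw [e2] at s2
    set X := (2 * (al (cx K i j i j) * u i j + al (cx K i j i a) * u i a +
      al (cx K i j i b) * u i b + al (cx K i j j a) * u j a + al (cx K i j j b) * u j b +
      al (cx K i j a b) * u a b)) with hX
    set Y := (2 * (al (cx K a b i j) * u i j + al (cx K a b i a) * u i a +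
      al (cx K a b i b) * u i b + al (cx K a b j a) * u j a + al (cx K a b j b) * u j b +
      al (cx K a b a b) * u a b)) with hY
    have s4 : TT i j a b * (Pk (cx K) i j * Pk (cx K) a b) = TT i j a b * (X * Y) := by
      linear_combination Pk (cx K) a b * s1 + X * s2
    have s5 : 4 * (al (cx K i j i j) * al (cx K a b a b) + al (cx K i j a b) * al (cx K a b i j) -
        al (cx K i j i a) * al (cx K a b j b) - al (cx K i j j b) * al (cx K a b i a) +
        al (cx K i j i b) * al (cx K a b j a) + al (cx K i j j a) * al (cx K a b i b)) =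
        al (4 * (Bq K i j a b : ℝ)) := by
      unfold Bq
      simp only [cx, ← map_mul, ← map_add, ← map_sub]
      push_cast
      rw [map_mul, map_ofNat]
    rw [s5] at s3
    have s6 : ff false true (idM : Mt m) ^ (2 * m - 4) * ((bv (th m false i) (th m false j) *
        Pk (cx K) i j) * (bv (th m false a) (th m false b) * Pk (cx K) a b)) =
        (4 * (Bq K i j a b : ℝ) : ℂ) • (ff false true (idM : Mt m) ^ (2 * m - 4) *
          (ww i j a b * (u i j * u a b))) := by
      have g1 := g_pow h
      have g2 : ff false true (idM : Mt m) ^ (2 * m - 4) * ((bv (th m false i) (th m false j) *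
          Pk (cx K) i j) * (bv (th m false a) (th m false b) * Pk (cx K) a b)) =
          (ff false true (idM : Mt m) ^ (2 * m - 4) * ww i j a b) *
            (Pk (cx K) i j * Pk (cx K) a b) := by
        unfold ww
        ring
      have g3 : ff false true (idM : Mt m) ^ (2 * m - 4) * (ww i j a b * (u i j * u a b)) =
          (ff false true (idM : Mt m) ^ (2 * m - 4) * ww i j a b) * (u i j * u a b) := by
        ring
      rw [g2, g3, g1, Algebra.smul_def, ← hal]
      linear_combination (((2 * m - 4).factorial : Zc (I2 m → ℂ)) * ww i j a b) * s4 +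
        (((2 * m - 4).factorial : Zc (I2 m → ℂ)) * ww i j a b * TT i j a b) * s3
    rw [s6, map_smul, top4 h, smul_eq_mul]
    ring
  · have hz : bv (th m false i) (th m false j) * Pk (cx K) i j *
        (bv (th m false a) (th m false b) * Pk (cx K) a b) = 0 := by
      have hw : (bv (th m false i) (th m false j) * bv (th m false a) (th m false b) :
          Zc (I2 m → ℂ)) = 0 := by
        have h' : i = j ∨ i = a ∨ i = b ∨ j = a ∨ j = b ∨ a = b := by
          by_contra hc
          push Not at hc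
          exact h ⟨hc.1, hc.2.1, hc.2.2.1, hc.2.2.2.1, hc.2.2.2.2.1, hc.2.2.2.2.2⟩
        rcases h' with h' | h' | h' | h' | h' | h'
        · rw [h', bv_self, zero_mul]
        · exact bv_mul_zero (Or.inl (Or.inl (by rw [h'])))
        · exact bv_mul_zero (Or.inl (Or.inr (by rw [h'])))
        · exact bv_mul_zero (Or.inr (Or.inl (by rw [h'])))
        · exact bv_mul_zero (Or.inr (Or.inr (by rw [h'])))
        · rw [h', bv_self, mul_zero]
      linear_combination (Pk (cx K) i j * Pk (cx K) a b) * hw
    rw [hz, mul_zero, map_zero, Bq_zero hK h]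
    simp

/-- components of the Ricci tensor -/
def rick (K : T4 m) (j l : Fin m × Bool) : ℝ := ∑ i, K i j i l

/-- `scal² - 4 |Ric|² + |K|²` -/
def Qk (K : T4 m) : ℝ :=
  (∑ i, ∑ j, K i j i j) ^ 2 - 4 * ∑ j, ∑ l, rick K j l ^ 2 + ∑ i, ∑ j, ∑ k, ∑ l, K i j k l ^ 2

theorem sum22 {ι : Type} [Fintype ι] (f : ι → ι → ι → ℝ) (g : ι → ι → ι → ℝ) :
    ∑ i, ∑ j, ∑ a, ∑ b, f i j a * g a b j = ∑ j, ∑ a, (∑ i, f i j a) * ∑ b, g a b j := by
  rw [Finset.sum_comm]
  refine Finset.sum_congr rfl fun j _ => ?_
  rw [Finset.sum_comm]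
  refine Finset.sum_congr rfl fun a _ => ?_
  rw [Finset.sum_mul_sum]

theorem Bq_sum {K : T4 m} (hK : Sy K) : ∑ i, ∑ j, ∑ a, ∑ b, Bq K i j a b = Qk K := by
  have hs : ∀ j l, rick K l j = rick K j l := fun j l =>
    Finset.sum_congr rfl fun i _ => hK.pr i j i l
  have t1 : ∑ i, ∑ j, ∑ a, ∑ b, K i j i j * K a b a b = (∑ i, ∑ j, K i j i j) ^ 2 := by
    rw [sq, Finset.sum_mul]
    refine Finset.sum_congr rfl fun i _ => ?_
    rw [Finset.sum_mul]
    refine Finset.sum_congr rfl fun j _ => ?_
    simp only [Finset.mul_sum]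
  have t2 : ∑ i, ∑ j, ∑ a, ∑ b, K i j a b * K a b i j = ∑ i, ∑ j, ∑ k, ∑ l, K i j k l ^ 2 := by
    refine Finset.sum_congr rfl fun i _ => Finset.sum_congr rfl fun j _ =>
      Finset.sum_congr rfl fun a _ => Finset.sum_congr rfl fun b _ => ?_
    rw [hK.pr i j a b]
    ring
  have t3 : ∑ i, ∑ j, ∑ a, ∑ b, K i j i a * K a b j b = ∑ j, ∑ l, rick K j l ^ 2 := by
    rw [sum22 (fun i j a => K i j i a) (fun a b j => K a b j b)]
    refine Finset.sum_congr rfl fun j _ => Finset.sum_congr rfl fun a _ => ?_
    have h1 : ∑ b, K a b j b = rick K j a := by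
      rw [← hs]
      refine Finset.sum_congr rfl fun b _ => ?_
      rw [hK.a12 b a j b, hK.a34 b a b j]
      ring
    rw [h1, sq]
    rfl
  have t4 : ∑ i, ∑ j, ∑ a, ∑ b, K i j j b * K a b i a = ∑ j, ∑ l, rick K j l ^ 2 := by
    have h0 : ∑ i, ∑ j, ∑ a, ∑ b, K i j j b * K a b i a =
        ∑ i, ∑ b, (∑ j, K i j j b) * ∑ a, K a b i a := by
      refine Finset.sum_congr rfl fun i _ => ?_
      have h2 : ∀ j, ∑ a, ∑ b, K i j j b * K a b i a = ∑ b, ∑ a, K i j j b * K a b i a :=
        fun j => Finset.sum_comm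
      simp only [h2]
      rw [Finset.sum_comm]
      refine Finset.sum_congr rfl fun b _ => ?_
      rw [Finset.sum_mul_sum]
    rw [h0]
    refine Finset.sum_congr rfl fun i _ => Finset.sum_congr rfl fun b _ => ?_
    have h1 : ∑ j, K i j j b = - rick K i b := by
      unfold rick
      rw [← Finset.sum_neg_distrib]
      exact Finset.sum_congr rfl fun j _ => hK.a12 j i j b
    have h2 : ∑ a, K a b i a = - rick K i b := by
      rw [← hs]
      unfold rick
      rw [← Finset.sum_neg_distrib]
      exact Finset.sum_congr rfl fun j _ => hK.a34 j b j i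
    rw [h1, h2]
    ring
  have t5 : ∑ i, ∑ j, ∑ a, ∑ b, K i j i b * K a b j a = - ∑ j, ∑ l, rick K j l ^ 2 := by
    have h0 : ∑ i, ∑ j, ∑ a, ∑ b, K i j i b * K a b j a =
        ∑ j, ∑ b, (∑ i, K i j i b) * ∑ a, K a b j a := by
      rw [Finset.sum_comm]
      refine Finset.sum_congr rfl fun j _ => ?_
      have h2 : ∀ i, ∑ a, ∑ b, K i j i b * K a b j a = ∑ b, ∑ a, K i j i b * K a b j a :=
        fun j => Finset.sum_comm
      simp only [h2]
      rw [Finset.sum_comm]
      refine Finset.sum_congr rfl fun b _ => ?_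
      rw [Finset.sum_mul_sum]
    rw [h0, ← Finset.sum_neg_distrib]
    refine Finset.sum_congr rfl fun j _ => ?_
    rw [← Finset.sum_neg_distrib]
    refine Finset.sum_congr rfl fun b _ => ?_
    have h2 : ∑ a, K a b j a = - rick K j b := by
      rw [← hs]
      unfold rick
      rw [← Finset.sum_neg_distrib]
      exact Finset.sum_congr rfl fun i _ => hK.a34 i b i j
    rw [h2]
    show rick K j b * _ = _
    ring
  have t6 : ∑ i, ∑ j, ∑ a, ∑ b, K i j j a * K a b i b = - ∑ j, ∑ l, rick K j l ^ 2 := by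
    have h0 : ∑ i, ∑ j, ∑ a, ∑ b, K i j j a * K a b i b =
        ∑ i, ∑ a, (∑ j, K i j j a) * ∑ b, K a b i b := by
      refine Finset.sum_congr rfl fun i _ => ?_
      rw [Finset.sum_comm]
      refine Finset.sum_congr rfl fun a _ => ?_
      rw [Finset.sum_mul_sum]
    rw [h0, ← Finset.sum_neg_distrib]
    refine Finset.sum_congr rfl fun i _ => ?_
    rw [← Finset.sum_neg_distrib]
    refine Finset.sum_congr rfl fun a _ => ?_
    have h1 : ∑ j, K i j j a = - rick K i a := by
      unfold rick
      rw [← Finset.sum_neg_distrib]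
      exact Finset.sum_congr rfl fun j _ => hK.a12 j i j a
    have h2 : ∑ b, K a b i b = rick K i a := by
      rw [← hs]
      refine Finset.sum_congr rfl fun b _ => ?_
      rw [hK.a12 b a i b, hK.a34 b a b i]
      ring
    rw [h1, h2]
    ring
  unfold Bq Qk
  simp only [Finset.sum_add_distrib, Finset.sum_sub_distrib]
  rw [t1, t2, t3, t4, t5, t6]
  ring

/-- The quadratic term. -/
theorem quad_term {K : T4 m} (hK : Sy K) :
    Lf m (ff false true (idM : Mt m) ^ (2 * m - 4) * (eL (cx K) * eL (cx K))) =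
      4 * (((2 * m - 4).factorial : ℂ) * (-1) ^ m) * (Qk K : ℝ) := by
  have h1 : Lf m (ff false true (idM : Mt m) ^ (2 * m - 4) * (eL (cx K) * eL (cx K))) =
      ∑ i, ∑ j, ∑ a, ∑ b, Lf m (ff false true (idM : Mt m) ^ (2 * m - 4) *
        ((bv (th m false i) (th m false j) * Pk (cx K) i j) *
          (bv (th m false a) (th m false b) * Pk (cx K) a b))) := by
    rw [eL_Pk]
    simp only [Finset.sum_mul, Finset.mul_sum, map_sum]
    refine Finset.sum_congr rfl fun i _ => Finset.sum_congr rfl fun j _ =>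
      Finset.sum_congr rfl fun a _ => Finset.sum_congr rfl fun b _ => ?_
    rw [mul_comm (bv (th m false a) (th m false b) * Pk (cx K) a b)]
  rw [h1, ← Bq_sum hK]
  simp only [term4 hK]
  push_cast
  simp only [Finset.mul_sum]

end Pool.Agent.U661.EI
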