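import Pool.Agent.U661.EI.Ein

/-!
# Sectional curvatures
-/

set_option autoImplicit false

namespace Pool.Agent.U661.EI

open Finset Pool.Agent.Y195.HF Pool.Agent.W666.GB Pool.Agent.W669.HD Pool.Agent.U661.HS
open Pool.Agent.U661.RW Pool.Agent.R770.QC Pool.Agent.U661.RZ
open Pool.Agent.U661.RV hiding co

variable {m : ℕ} {V : Type} [NormedAddCommGroup V] [InnerProductSpace ℝ V]

/-- An orthonormal pair is part of an orthonormal basis. -/
theorem exists_basis (hm : 0 < m) (e : OrthonormalBasis (Fin m × Bool) ℝ V) {x y : V}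
    (hx : ‖x‖ = 1) (hy : ‖y‖ = 1) (hxy : inner ℝ x y = 0) :
    ∃ (f : OrthonormalBasis (Fin m × Bool) ℝ V) (i j : Fin m × Bool),
      i ≠ j ∧ f i = x ∧ f j = y := by
  classical
  have : FiniteDimensional ℝ V := Module.Finite.of_basis e.toBasis
  set i : Fin m × Bool := (⟨0, hm⟩, false) with hi
  set j : Fin m × Bool := (⟨0, hm⟩, true) with hj
  have hij : i ≠ j := by simp [hi, hj]
  set v : Fin m × Bool → V := fun k => if k = i then x else y with hv
  have vi : v i = x := by simp [hv]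
  have vj : v j = y := by simp [hv, hij.symm]
  have ho : Orthonormal ℝ (({i, j} : Set (Fin m × Bool)).domRestrict v) := by
    rw [orthonormal_iff_ite]
    rintro ⟨a, ha⟩ ⟨b, hb⟩
    simp only [Set.domRestrict_apply, Subtype.mk.injEq]
    rcases ha with ha | ha <;> rcases hb with hb | hb
    · rw [ha, hb, vi, if_pos rfl, real_inner_self_eq_norm_sq, hx]
      norm_num
    · rw [ha, hb, vi, vj, if_neg hij, hxy]
    · rw [ha, hb, vi, vj, if_neg hij.symm, real_inner_comm, hxy]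
    · rw [ha, hb, vj, if_pos rfl, real_inner_self_eq_norm_sq, hy]
      norm_num
  obtain ⟨f, hf⟩ := ho.exists_orthonormalBasis_extension_of_card_eq
    (Module.finrank_eq_card_basis e.toBasis)
  exact ⟨f, i, j, hij, by rw [hf i (by simp), vi], by rw [hf j (by simp), vj]⟩

theorem curv_bl {F : V → V → V → V → ℝ} (hF : AlgCurv F) (y w : V) :
    Bl fun u v => F u y v w :=
  ⟨fun x x' z => hF.add x x' y z w, fun t x z => hF.smul t x y z w,
    fun x z z' => hF.add3 x y z z' w, fun t x z => hF.smul3 t x y z w⟩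

/-- The Einstein condition does not depend on the orthonormal basis. -/
theorem ein_inv (e f : OrthonormalBasis (Fin m × Bool) ℝ V) {F : V → V → V → V → ℝ}
    (hF : AlgCurv F) {κ : ℝ} (hE : Einstein e F κ) : Einstein f F κ := by
  intro y w
  rw [← hE y w]
  exact trace_inv e f (curv_bl hF y w)

theorem full_diag (e : OrthonormalBasis (Fin m × Bool) ℝ V) (δ : ℝ) {n q : ℕ}
    {A : Fin n → V → V → ℝ} {h : Fin q → V → V → ℝ} (D : V → V → V → V → ℝ)
    (hA : ∀ a, SkewForm (A a)) (hh : ∀ b, HS.SymForm (h b)) (i j : Fin m × Bool) :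
    full (plus δ D) A h (e i) (e j) (e i) (e j) = δ * unitCurv i j i j +
      D (e i) (e j) (e i) (e j) + ∑ a, 3 * A a (e i) (e j) ^ 2 -
      (∑ b, h b (e i) (e i) * h b (e j) (e j) - ∑ b, h b (e i) (e j) ^ 2) := by
  simp only [full, plus, cp_unit]
  congr 1
  · congr 1
    refine Finset.sum_congr rfl fun a _ => ?_
    have z1 : A a (e i) (e i) = 0 := by have := (hA a).anti (e i) (e i); linarith
    simp only [skewCurv]
    rw [(hA a).anti (e i) (e j), z1]
    ring
  · rw [← Finset.sum_sub_distrib]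
    refine Finset.sum_congr rfl fun b _ => ?_
    rw [(hh b).symm (e i) (e j)]
    ring

/-- the Ricci tensor of the rest -/
theorem ric_rest (e : OrthonormalBasis (Fin m × Bool) ℝ V) {δ κ : ℝ} {n q : ℕ}
    {A : Fin n → V → V → ℝ} {h : Fin q → V → V → ℝ} {D : V → V → V → V → ℝ}
    (hA : ∀ a, SkewForm (A a)) (hh : ∀ b, HS.SymForm (h b)) (hr : RevM A h D)
    (hE : Einstein e (full (plus δ D) A h) κ) (j : Fin m × Bool) :
    ∑ i, (D (e i) (e j) (e i) (e j) + ∑ a, 3 * A a (e i) (e j) ^ 2 +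
      ∑ b, h b (e i) (e j) ^ 2) = (2 * m - 1) * (κ - δ) := by
  have h1 := hE (e j) (e j)
  rw [orthonormal_iff_ite.mp e.orthonormal j j, if_pos rfl, mul_one] at h1
  simp only [full_diag e δ D hA hh] at h1
  have h2 : ∑ i, ∑ b, h b (e i) (e i) * h b (e j) (e j) = 0 := by
    rw [Finset.sum_comm]
    refine Finset.sum_eq_zero fun b _ => ?_
    rw [← Finset.sum_mul, hr.trace e hh b, zero_mul]
  have h3 : ∑ i : Fin m × Bool, δ * (unitCurv i j i j : ℝ) = δ * (2 * m - 1) := by
    rw [← Finset.mul_sum]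
    congr 1
    have := rick_uT (m := m) j j
    rw [if_pos rfl, mul_one] at this
    exact this
  simp only [Finset.sum_add_distrib, Finset.sum_sub_distrib] at h1 ⊢
  rw [h2, h3] at h1
  linarith

/-- `δ ≤ κ` -/
theorem le_kappa (hm : 0 < m) (e : OrthonormalBasis (Fin m × Bool) ℝ V) {δ κ : ℝ} {n q : ℕ}
    {A : Fin n → V → V → ℝ} {h : Fin q → V → V → ℝ} {D : V → V → V → V → ℝ}
    (hA : ∀ a, SkewForm (A a)) (hh : ∀ b, HS.SymForm (h b)) (hr : RevM A h D)
    (hE : Einstein e (full (plus δ D) A h) κ) : δ ≤ κ := by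
  have h1 := ric_rest e hA hh hr hE (⟨0, hm⟩, false)
  obtain ⟨g, hD⟩ := hr.mcone
  have h2 : 0 ≤ (2 * (m : ℝ) - 1) * (κ - δ) := by
    rw [← h1]
    refine Finset.sum_nonneg fun i _ => ?_
    have := hD.sec (e i) (e (⟨0, hm⟩, false))
    positivity
  have h3 : (0 : ℝ) < 2 * m - 1 := by
    have : (1 : ℝ) ≤ m := by exact_mod_cast hm
    linarith
  have := nonneg_of_mul_nonneg_right h2 h3
  linarith

/-- The bound of the sectional curvatures. -/
theorem sec_bound (hm : 0 < m) (e : OrthonormalBasis (Fin m × Bool) ℝ V) {δ κ : ℝ} {n q : ℕ}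
    {A : Fin n → V → V → ℝ} {h : Fin q → V → V → ℝ} {D : V → V → V → V → ℝ}
    (hA : ∀ a, SkewForm (A a)) (hh : ∀ b, HS.SymForm (h b)) (hr : RevM A h D)
    (hE : Einstein e (full (plus δ D) A h) κ) {x y : V}
    (hx : ‖x‖ = 1) (hy : ‖y‖ = 1) (hxy : inner ℝ x y = 0) :
    |full (plus δ D) A h x y x y - δ| ≤ (2 * m - 1) * (κ - δ) := by
  classical
  obtain ⟨g, hD⟩ := hr.mcone
  have hF := full_curv hA hh hD.curv δ
  obtain ⟨f, i, j, hij, rfl, rfl⟩ := exists_basis hm e hx hy hxy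
  have hE' := ein_inv e f hF hE
  rw [full_diag f δ D hA hh i j]
  have key : ∀ i j : Fin m × Bool, i ≠ j → D (f i) (f j) (f i) (f j) +
      ∑ a, 3 * A a (f i) (f j) ^ 2 + ∑ b, h b (f i) (f j) ^ 2 + ∑ b, h b (f j) (f j) ^ 2 ≤
      (2 * m - 1) * (κ - δ) := by
    intro i j hij
    rw [← ric_rest f hA hh hr hE' j, ← Finset.add_sum_erase univ _ (Finset.mem_univ i),
      ← Finset.add_sum_erase (univ.erase i) _ (by simp [hij.symm] : j ∈ univ.erase i)]
    have h1 : 0 ≤ ∑ k ∈ (univ.erase i).erase j, (D (f k) (f j) (f k) (f j) +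
        ∑ a, 3 * A a (f k) (f j) ^ 2 + ∑ b, h b (f k) (f j) ^ 2) := by
      refine Finset.sum_nonneg fun k _ => ?_
      have := hD.sec (f k) (f j)
      positivity
    have h2 := hD.sec (f j) (f j)
    have h3 : 0 ≤ ∑ a, 3 * A a (f j) (f j) ^ 2 := by positivity
    linarith
  have k1 := key i j hij
  have k2 := key j i hij.symm
  have s1 : D (f j) (f i) (f j) (f i) = D (f i) (f j) (f i) (f j) := by
    rw [hD.curv.anti (f i) (f j), hD.curv.a34 (f i) (f j) (f j) (f i)]
    ring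
  have s2 : ∀ a, A a (f j) (f i) ^ 2 = A a (f i) (f j) ^ 2 := fun a => by
    rw [(hA a).anti (f i) (f j)]
    ring
  have s3 : ∀ b, h b (f j) (f i) ^ 2 = h b (f i) (f j) ^ 2 := fun b => by
    rw [(hh b).symm (f i) (f j)]
  simp only [s1, s2, s3] at k2
  have u1 : (unitCurv i j i j : ℝ) = 1 := by
    simp [unitCurv, hij, hij.symm]
  have p1 : 0 ≤ ∑ b, (h b (f i) (f i) + h b (f j) (f j)) ^ 2 := by positivity
  have p2 : 0 ≤ ∑ b, (h b (f i) (f i) - h b (f j) (f j)) ^ 2 := by positivity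
  have p1' : ∑ b, (h b (f i) (f i) + h b (f j) (f j)) ^ 2 = ∑ b, h b (f i) (f i) ^ 2 +
      ∑ b, h b (f j) (f j) ^ 2 + 2 * ∑ b, h b (f i) (f i) * h b (f j) (f j) := by
    rw [Finset.mul_sum, ← Finset.sum_add_distrib, ← Finset.sum_add_distrib]
    exact Finset.sum_congr rfl fun b _ => by ring
  have p2' : ∑ b, (h b (f i) (f i) - h b (f j) (f j)) ^ 2 = ∑ b, h b (f i) (f i) ^ 2 +
      ∑ b, h b (f j) (f j) ^ 2 - 2 * ∑ b, h b (f i) (f i) * h b (f j) (f j) := by
    rw [Finset.mul_sum, ← Finset.sum_add_distrib, ← Finset.sum_sub_distrib]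
    exact Finset.sum_congr rfl fun b _ => by ring
  rw [p1'] at p1
  rw [p2'] at p2
  have q1 := hD.sec (f i) (f j)
  have q2 : 0 ≤ ∑ a, 3 * A a (f i) (f j) ^ 2 := by positivity
  have q3 : 0 ≤ ∑ b, h b (f i) (f j) ^ 2 := by positivity
  rw [u1, abs_le]
  constructor <;> linarith

/-- The bounds of the sectional curvatures for the second class. -/
theorem sec_two (hm : 0 < m) (e : OrthonormalBasis (Fin m × Bool) ℝ V) {δ κ : ℝ}
    {F : V → V → V → V → ℝ} (hF : AlgCurv F) (hE : Einstein e F κ)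
    (hs : ∀ x y : V, 0 ≤ F x y x y - δ * unitT x y x y) :
    δ ≤ κ ∧ ∀ x y : V, ‖x‖ = 1 → ‖y‖ = 1 → inner ℝ x y = 0 →
      |F x y x y - δ| ≤ (2 * m - 1) * (κ - δ) := by
  have key : ∀ (f : OrthonormalBasis (Fin m × Bool) ℝ V) (j : Fin m × Bool),
      ∑ i, (F (f i) (f j) (f i) (f j) - δ * unitT (f i) (f j) (f i) (f j)) =
        (2 * m - 1) * (κ - δ) := by
    intro f j
    have h1 := ein_inv e f hF hE (f j) (f j)
    rw [orthonormal_iff_ite.mp f.orthonormal j j, if_pos rfl, mul_one] at h1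
    have h3 : ∑ i : Fin m × Bool, δ * (unitCurv i j i j : ℝ) = δ * (2 * m - 1) := by
      rw [← Finset.mul_sum]
      congr 1
      have := rick_uT (m := m) j j
      rw [if_pos rfl, mul_one] at this
      exact this
    simp only [cp_unit, Finset.sum_sub_distrib]
    rw [h1, h3]
    ring
  have h3 : (0 : ℝ) < 2 * m - 1 := by
    have : (1 : ℝ) ≤ m := by exact_mod_cast hm
    linarith
  have h4 : 0 ≤ (2 * (m : ℝ) - 1) * (κ - δ) := by
    rw [← key e (⟨0, hm⟩, false)]
    exact Finset.sum_nonneg fun i _ => hs _ _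
  refine ⟨by linarith [nonneg_of_mul_nonneg_right h4 h3], fun x y hx hy hxy => ?_⟩
  obtain ⟨f, i, j, hij, rfl, rfl⟩ := exists_basis hm e hx hy hxy
  have h5 : F (f i) (f j) (f i) (f j) - δ * unitT (f i) (f j) (f i) (f j) ≤
      (2 * m - 1) * (κ - δ) := by
    rw [← key f j]
    exact Finset.single_le_sum (f := fun i => F (f i) (f j) (f i) (f j) -
      δ * unitT (f i) (f j) (f i) (f j)) (fun i _ => hs _ _) (Finset.mem_univ i)
  have h6 := hs (f i) (f j)
  have u1 : (unitCurv i j i j : ℝ) = 1 := by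
    simp [unitCurv, hij, hij.symm]
  rw [cp_unit, u1, mul_one] at h5 h6
  rw [abs_le]
  constructor <;> linarith

end Pool.Agent.U661.EI
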