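import Pool.Agent.U661.EI.Mom

/-!
# The expansion of order two with a dimension-free remainder
-/

set_option autoImplicit false

namespace Pool.Agent.U661.EI

open Finset Pool.Agent.Y195.HF Pool.Agent.W666.GB Pool.Agent.W669.HD Pool.Agent.U661.HS
open Pool.Agent.U661.RW Pool.Agent.R770.QC Pool.Agent.U661.RZ
open Pool.Agent.U661.RV hiding co
open Pool.Agent.U908.HS (meanK dev scal_eq dev_sq dev_nonneg)

variable {m : ℕ} {V : Type} [NormedAddCommGroup V] [InnerProductSpace ℝ V]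

theorem restT_cp (e : OrthonormalBasis (Fin m × Bool) ℝ V) (κ : ℝ) (R : V → V → V → V → ℝ)
    (i j k l : Fin m × Bool) : restT κ R (e i) (e j) (e k) (e l) = EE e R κ i j k l := by
  have h := cp_unit e i j k l
  simp only [restT, EE]
  rw [h]
  ring

theorem rest_norm (e : OrthonormalBasis (Fin m × Bool) ℝ V) (κ : ℝ) (R : V → V → V → V → ℝ) :
    ∑ i, ∑ j, ∑ k, ∑ l, restT κ R (e i) (e j) (e k) (e l) ^ 2 = devR e R κ := by
  simp only [restT_cp, EE, neg_sq, devR]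

theorem rest_ric (e : OrthonormalBasis (Fin m × Bool) ℝ V) (κ : ℝ) (R : V → V → V → V → ℝ)
    (j l : Fin m × Bool) : ∑ i, restT κ R (e i) (e j) (e i) (e l) =
      -(∑ i, R (e i) (e j) (e i) (e l) + (2 * m - 1) * κ * (if j = l then 1 else 0)) := by
  rw [← ricc_EE e κ j l]
  simp only [restT_cp, ricc]

theorem rest_scal (e : OrthonormalBasis (Fin m × Bool) ℝ V) {κ : ℝ} {R : V → V → V → V → ℝ}
    (hs : scal e R = -(κ * (2 * m * (2 * m - 1)))) : scal e (restT κ R) = 0 := by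
  have h1 : scal e (restT κ R) = ∑ j, ∑ i, restT κ R (e i) (e j) (e i) (e j) := by
    unfold scal
    rw [Finset.sum_comm]
  have h2 : ∑ j, ∑ i, R (e i) (e j) (e i) (e j) = scal e R := by
    unfold scal
    rw [Finset.sum_comm]
  rw [h1]
  simp only [rest_ric, if_true, Finset.sum_neg_distrib, Finset.sum_add_distrib,
    Finset.sum_const, Finset.card_univ, Fintype.card_prod, Fintype.card_fin, Fintype.card_bool,
    nsmul_eq_mul]
  rw [h2, hs]
  push_cast
  ring

theorem mix_one (e : OrthonormalBasis (Fin m × Bool) ℝ V) (hm : 1 ≤ m) {K : V → V → V → V → ℝ}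
    (hK : AlgCurv K) (hs : scal e K = 0) : mixGB e 1 K = 0 := by
  have h3 := LR_lin (cp e K) 1 (k := m - 1) (by omega)
  rw [mix_LR e K hm, pow_one]
  unfold uu
  rw [h3, tr4_curv e hK, hs]
  simp

theorem mix_two (e : OrthonormalBasis (Fin m × Bool) ℝ V) (hm : 2 ≤ m) {K : V → V → V → V → ℝ}
    (hK : AlgCurv K) : mixGB e 2 K = 2 ^ m * (2 * m - 4).factorial * secondGB e K := by
  rw [mix_LR e K hm]
  unfold uu
  rw [LR_quad (cp_sy e hK) 1 (k := m - 2) (by omega), one_pow, mul_one]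
  rfl

theorem round_one : roundGB m 1 = 1 / ((8 * Real.pi) ^ m * (m.factorial : ℝ)) *
    (2 ^ m * (2 * m).factorial) := by
  have hπ := Real.pi_pos
  have h8 : (8 * Real.pi) ^ m = 2 ^ m * (4 * Real.pi) ^ m := by
    rw [← mul_pow]; congr 1; ring
  unfold roundGB
  rw [h8]
  field_simp
  simp

theorem split_range (hm : 2 ≤ m) (f : ℕ → ℝ) :
    ∑ j ∈ range (m + 1), f j = f 0 + (f 1 + (f 2 + ∑ j ∈ Icc 3 m, f j)) := by
  have h1 : range (m + 1) = insert 0 (insert 1 (insert 2 (Icc 3 m))) := by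
    ext j
    simp only [mem_range, mem_insert, mem_Icc]
    omega
  rw [h1, Finset.sum_insert (by simp), Finset.sum_insert (by simp), Finset.sum_insert (by simp)]

/-- The term of order two. -/
noncomputable def ord2 (e : OrthonormalBasis (Fin m × Bool) ℝ V) (κ : ℝ)
    (K : V → V → V → V → ℝ) : ℝ :=
  κ ^ (m - 2) * secondGB e K / (8 * (2 * m - 1) * (2 * m - 3))

theorem quad_coef (hm : 2 ≤ m) (κ S : ℝ) :
    1 / ((8 * Real.pi) ^ m * (m.factorial : ℝ)) *
      (m.choose 2 * κ ^ (m - 2) * (2 ^ m * (2 * m - 4).factorial * S)) =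
      roundGB m 1 * (κ ^ (m - 2) * S / (8 * (2 * m - 1) * (2 * m - 3))) := by
  obtain ⟨N, rfl⟩ : ∃ N, m = N + 2 := ⟨m - 2, by omega⟩
  have hπ := Real.pi_pos
  have e1' : 2 * (N + 2) - 4 = 2 * N := by omega
  have e2 : ((2 * (N + 2)).factorial : ℝ) =
      (2 * N + 4) * (2 * N + 3) * ((2 * N + 2) * (2 * N + 1) * (2 * N).factorial) := by
    rw [show 2 * (N + 2) = 2 * N + 1 + 1 + 1 + 1 by ring, Nat.factorial_succ, Nat.factorial_succ,
      Nat.factorial_succ, Nat.factorial_succ]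
    push_cast
    ring
  have e4 : (((N + 2).choose 2 : ℕ) : ℝ) = (N + 2) * (N + 1) / 2 := by
    rw [Nat.cast_choose_two]
    push_cast
    ring
  have k0 : (0 : ℝ) ≤ N := Nat.cast_nonneg N
  have n1 : (2 * (N : ℝ) + 3) ≠ 0 := by positivity
  have n2 : (2 * (N : ℝ) + 1) ≠ 0 := by positivity
  have n3 : (2 * ((N : ℝ) + 2) - 1) = 2 * N + 3 := by ring
  have n4 : (2 * ((N : ℝ) + 2) - 3) = 2 * N + 1 := by ring
  rw [round_one, e1', e2, e4, Nat.add_sub_cancel]
  push_cast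
  rw [n3, n4]
  field_simp
  ring

/-- **The expansion of order two at the mean curvature, with remainder.** -/
theorem universal2 (e : OrthonormalBasis (Fin m × Bool) ℝ V) (hm : 2 ≤ m)
    {R : V → V → V → V → ℝ} (hR : AlgCurv R) {κ x : ℝ} (hx : 0 ≤ x)
    (hs : scal e R = -(κ * (2 * m * (2 * m - 1))))
    (h4 : devR e R κ ≤ (x * (2 * m)) ^ 2) (h2 : devRic e R κ ≤ (x * (2 * m)) ^ 2) :
    |(-1) ^ m * gbc e R - roundGB m 1 * (κ ^ m + ord2 e κ (restT κ R))| ≤
      roundGB m 1 * (3 / 10 * ∑ j ∈ Icc 3 m, |κ| ^ (m - j) * (5 * 10 ^ 5 * x) ^ j) := by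
  have hπ := Real.pi_pos
  set K := restT κ R with hK0
  have hK : AlgCurv K := restT_curv hR κ
  have hsK : scal e K = 0 := rest_scal e hs
  have h4' : ∑ i, ∑ j, ∑ k, ∑ l, K (e i) (e j) (e k) (e l) ^ 2 ≤ (x * (2 * m)) ^ 2 := by
    rw [hK0, rest_norm]
    exact h4
  have h2' : ∑ j, ∑ l, (∑ i, K (e i) (e j) (e i) (e l)) ^ 2 ≤ (x * (2 * m)) ^ 2 := by
    refine le_trans (le_of_eq ?_) h2
    rw [hK0]
    simp only [rest_ric, neg_sq, devRic]
  have hc : 0 < 1 / ((8 * Real.pi) ^ m * (m.factorial : ℝ)) := by positivity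
  rw [expansion e κ R, split_range hm, ← hK0, mix_zero, mix_one e (by omega) hK hsK,
    mix_two e hm hK, mul_add, mul_add, mul_add, quad_coef hm]
  have h0 : 1 / ((8 * Real.pi) ^ m * (m.factorial : ℝ)) * ((m.choose 0 : ℕ) * κ ^ (m - 0) *
      ((8 * Real.pi) ^ m * m.factorial * roundGB m 1)) = roundGB m 1 * κ ^ m := by
    rw [Nat.choose_zero_right, Nat.sub_zero]
    push_cast
    field_simp
  rw [h0]
  have h5 : roundGB m 1 * κ ^ m + (1 / ((8 * Real.pi) ^ m * (m.factorial : ℝ)) *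
      ((m.choose 1 : ℕ) * κ ^ (m - 1) * 0) + (roundGB m 1 * (κ ^ (m - 2) * secondGB e K /
      (8 * (2 * m - 1) * (2 * m - 3))) + 1 / ((8 * Real.pi) ^ m * (m.factorial : ℝ)) *
      ∑ j ∈ Icc 3 m, (m.choose j : ℝ) * κ ^ (m - j) * mixGB e j K)) -
      roundGB m 1 * (κ ^ m + ord2 e κ K) = 1 / ((8 * Real.pi) ^ m * (m.factorial : ℝ)) *
      ∑ j ∈ Icc 3 m, (m.choose j : ℝ) * κ ^ (m - j) * mixGB e j K := by
    unfold ord2
    ring
  rw [h5, abs_mul, abs_of_pos hc, round_one, mul_assoc]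
  refine mul_le_mul_of_nonneg_left ?_ hc.le
  refine (Finset.abs_sum_le_sum_abs _ _).trans ?_
  rw [Finset.mul_sum, Finset.mul_sum]
  refine Finset.sum_le_sum fun j hj => ?_
  rw [Finset.mem_Icc] at hj
  have h6 := mix_bound e hK hsK hx h4' h2' (j := j) (by omega) hj.2
  calc |(m.choose j : ℝ) * κ ^ (m - j) * mixGB e j K| =
      |κ| ^ (m - j) * |m.choose j * mixGB e j K| := by
        rw [← abs_pow, ← abs_mul]
        congr 1
        ring
    _ ≤ |κ| ^ (m - j) * (2 ^ m * ((2 * m).factorial : ℝ) * (3 / 10 * (5 * 10 ^ 5 * x) ^ j)) :=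
        mul_le_mul_of_nonneg_left h6 (by positivity)
    _ = _ := by ring

/-- The form with `meanK` and `dev`. -/
theorem universal_dev (e : OrthonormalBasis (Fin m × Bool) ℝ V) (hm : 2 ≤ m)
    {R : V → V → V → V → ℝ} (hR : AlgCurv R) :
    |(-1) ^ m * gbc e R - roundGB m 1 * (meanK e R ^ m +
      ord2 e (meanK e R) (restT (meanK e R) R))| ≤ roundGB m 1 * (3 / 10 *
        ∑ j ∈ Icc 3 m, |meanK e R| ^ (m - j) * (5 * 10 ^ 5 * dev e R) ^ j) :=
  universal2 e hm hR (dev_nonneg e R) (scal_eq (by omega) e R)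
    (by rw [dev_sq (by omega)]; exact le_max_left _ _)
    (by rw [dev_sq (by omega)]; exact le_max_right _ _)

end Pool.Agent.U661.EI
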