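import Pool.Agent.U661.EI.Wey

/-!
# The theorems for Einstein tensors
-/

set_option autoImplicit false

namespace Pool.Agent.U661.EI

open Finset MeasureTheory Pool.Agent.W666.GB Pool.Agent.W669.HD

variable {m : ℕ} {V : Type} [NormedAddCommGroup V] [InnerProductSpace ℝ V]

/-- The squared norm of the Weyl tensor `R - s κ unitT` of an Einstein tensor `R` with Ricci tensor
`s (2 m - 1) κ` times the metric. -/
noncomputable def weylSq (e : OrthonormalBasis (Fin m × Bool) ℝ V) (s κ : ℝ)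
    (R : V → V → V → V → ℝ) : ℝ := devR e R (-(s * κ))

/-- The norm of the Weyl tensor divided by the dimension `2 m`. -/
noncomputable def weylN (e : OrthonormalBasis (Fin m × Bool) ℝ V) (s κ : ℝ)
    (R : V → V → V → V → ℝ) : ℝ := Real.sqrt (weylSq e s κ R) / (2 * m)

theorem weylSq_nonneg (e : OrthonormalBasis (Fin m × Bool) ℝ V) (s κ : ℝ)
    (R : V → V → V → V → ℝ) : 0 ≤ weylSq e s κ R := by
  unfold weylSq devR
  positivity

theorem ein_scal (e : OrthonormalBasis (Fin m × Bool) ℝ V) {R : V → V → V → V → ℝ} {t : ℝ}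
    (hE : Einstein e R (-t)) : scal e R = -(t * (2 * m * (2 * m - 1))) := by
  have h2 : scal e R = ∑ j, ∑ i, R (e i) (e j) (e i) (e j) := by
    unfold scal
    rw [Finset.sum_comm]
  have h3 : ∀ j, ∑ i, R (e i) (e j) (e i) (e j) = (2 * m - 1) * (-t) := by
    intro j
    rw [hE (e j) (e j), real_inner_self_eq_norm_sq, e.orthonormal.1 j]
    ring
  rw [h2]
  simp only [h3, Finset.sum_const, Finset.card_univ, Fintype.card_prod, Fintype.card_fin,
    Fintype.card_bool, nsmul_eq_mul]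
  push_cast
  ring

theorem ein_ric0 (e : OrthonormalBasis (Fin m × Bool) ℝ V) {R : V → V → V → V → ℝ} {t : ℝ}
    (hE : Einstein e R (-t)) (j l : Fin m × Bool) :
    ∑ i, R (e i) (e j) (e i) (e l) + (2 * m - 1) * t * (if j = l then 1 else 0) = 0 := by
  classical
  rw [hE (e j) (e l), orthonormal_iff_ite.1 e.orthonormal j l]
  split_ifs <;> ring

theorem ein_second (e : OrthonormalBasis (Fin m × Bool) ℝ V) {R : V → V → V → V → ℝ} {t : ℝ}
    (hE : Einstein e R (-t)) : secondGB e (restT t R) = devR e R t := by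
  unfold secondGB
  rw [rest_scal e (ein_scal e hE), rest_norm]
  have h : ∀ j l, ∑ i, restT t R (e i) (e j) (e i) (e l) = 0 := by
    intro j l
    rw [rest_ric, ein_ric0 e hE j l, neg_zero]
  simp only [h]
  simp

/-- **Einstein tensors.** -/
theorem ein_point (e : OrthonormalBasis (Fin m × Bool) ℝ V) (hm : 2 ≤ m)
    {R : V → V → V → V → ℝ} (hR : AlgCurv R) {s κ : ℝ} (hs : s = 1 ∨ s = -1) (hκ : 0 ≤ κ)
    (hE : Einstein e R (s * κ)) :
    |s ^ m * gbc e R - roundGB m 1 * (κ ^ m + weyl2 m κ (weylSq e s κ R))| ≤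
      roundGB m 1 * (1 / 2 * weyl2 m κ (weylSq e s κ R) + (10 ^ 19 * weylN e s κ R) ^ m) ∧
    (10 ^ 19 * weylN e s κ R ≤ κ →
      |s ^ m * gbc e R - roundGB m 1 * (κ ^ m + weyl2 m κ (weylSq e s κ R))| ≤
      roundGB m 1 * (1 / 2 * weyl2 m κ (weylSq e s κ R))) := by
  have hm0 : (0 : ℝ) < m := by
    have : 0 < m := by omega
    exact_mod_cast this
  set t : ℝ := -(s * κ) with ht
  have hE' : Einstein e R (-t) := by
    rw [ht, neg_neg]
    exact hE
  set D : ℝ := weylSq e s κ R with hD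
  have hD0 : 0 ≤ D := weylSq_nonneg e s κ R
  have hDt : devR e R t = D := rfl
  set x : ℝ := weylN e s κ R with hx
  have hx0 : 0 ≤ x := by
    rw [hx]
    unfold weylN
    positivity
  have hxD : (x * (2 * m)) ^ 2 = D := by
    rw [hx]
    unfold weylN
    rw [div_mul_cancel₀ _ (by positivity), Real.sq_sqrt hD0]
  have hric : devRic e R t = 0 := by
    unfold devRic
    simp only [ein_ric0 e hE']
    simp
  have h := universal2 e hm hR hx0 (ein_scal e hE') (by rw [hDt, hxD])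
    (by rw [hric]; positivity)
  have hss : s * s = 1 := by rcases hs with hs | hs <;> rw [hs] <;> norm_num
  have habs : |t| = κ := by
    rw [ht, abs_neg, abs_mul, abs_of_nonneg hκ]
    rcases hs with hs | hs <;> rw [hs] <;> simp
  have hord : ord2 e t (restT t R) = t ^ (m - 2) * D / (8 * (2 * m - 1) * (2 * m - 3)) := by
    unfold ord2
    rw [ein_second e hE', hDt]
  rw [habs, hord] at h
  have hs2 : s ^ 2 = 1 := by rw [sq]; exact hss
  have key : |s ^ m * gbc e R - roundGB m 1 * (κ ^ m + weyl2 m κ D)| =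
      |(-1) ^ m * gbc e R - roundGB m 1 * (t ^ m + t ^ (m - 2) * D /
        (8 * (2 * m - 1) * (2 * m - 3)))| := by
    obtain ⟨N, rfl⟩ : ∃ N, m = N + 2 := ⟨m - 2, by omega⟩
    have e1 : (-s) ^ (N + 2) * ((-1) ^ (N + 2) * gbc e R - roundGB (N + 2) 1 * (t ^ (N + 2) +
        t ^ (N + 2 - 2) * D / (8 * (2 * (N + 2 : ℕ) - 1) * (2 * (N + 2 : ℕ) - 3)))) =
        s ^ (N + 2) * gbc e R - roundGB (N + 2) 1 * (κ ^ (N + 2) + weyl2 (N + 2) κ D) := by
      have a1 : (-s) ^ (N + 2) * (-1) ^ (N + 2) = s ^ (N + 2) := by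
        rw [← mul_pow]
        congr 1
        ring
      have a2 : (-s) ^ (N + 2) * t ^ (N + 2) = κ ^ (N + 2) := by
        rw [← mul_pow, ht]
        congr 1
        linear_combination κ * hss
      have a3 : (-s) ^ (N + 2) * t ^ N = κ ^ N := by
        have : (-s) ^ (N + 2) = (-s) ^ N := by
          rw [pow_add, neg_sq, hs2, mul_one]
        rw [this, ← mul_pow, ht]
        congr 1
        linear_combination κ * hss
      unfold weyl2
      rw [Nat.add_sub_cancel]
      calc _ = ((-s) ^ (N + 2) * (-1) ^ (N + 2)) * gbc e R - roundGB (N + 2) 1 *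
            ((-s) ^ (N + 2) * t ^ (N + 2) + ((-s) ^ (N + 2) * t ^ N) * D /
              (8 * (2 * (N + 2 : ℕ) - 1) * (2 * (N + 2 : ℕ) - 3))) := by ring
        _ = _ := by rw [a1, a2, a3]
    rw [← e1, abs_mul]
    have e2 : |(-s) ^ (N + 2)| = 1 := by
      rw [abs_pow, abs_neg]
      have : |s| = 1 := by rcases hs with hs | hs <;> rw [hs] <;> simp
      rw [this, one_pow]
    rw [e2, one_mul]
  have hr : 0 ≤ roundGB m 1 := (roundGB_pos one_pos).le
  obtain ⟨r1, r2⟩ := rem_ein hm hκ hx0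
  rw [hxD] at r1 r2
  rw [key]
  exact ⟨h.trans (mul_le_mul_of_nonneg_left r1 hr), fun hsm =>
    h.trans (mul_le_mul_of_nonneg_left (r2 hsm) hr)⟩

section field

variable {M : Type} [MeasurableSpace M] (μ : Measure M) [IsFiniteMeasure μ] (K : CurvField m M)

omit [IsFiniteMeasure μ] in
theorem weyl2_int (κ : ℝ) {f : M → ℝ} :
    ∫ p, weyl2 m κ (f p) ∂μ = weyl2 m κ (∫ p, f p ∂μ) := by
  have h : ∀ w : ℝ, weyl2 m κ w = κ ^ (m - 2) / (8 * (2 * m - 1) * (2 * m - 3)) * w := by
    intro w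
    unfold weyl2
    ring
  simp only [h, MeasureTheory.integral_const_mul]

/-- **The integrated inequalities.** -/
theorem ein_integral (hm : 2 ≤ m) {s κ : ℝ} (hs : s = 1 ∨ s = -1) (hκ : 0 ≤ κ)
    (hE : ∀ p, Einstein (K.e p) (K.R p) (s * κ)) (hi : Integrable K.gb μ)
    (hD : Integrable (fun p => weylSq (K.e p) s κ (K.R p)) μ) :
    (Integrable (fun p => (10 ^ 19 * weylN (K.e p) s κ (K.R p)) ^ m) μ →
      |s ^ m * ∫ p, K.gb p ∂μ - roundGB m 1 * (κ ^ m * μ.real Set.univ +
        weyl2 m κ (∫ p, weylSq (K.e p) s κ (K.R p) ∂μ))| ≤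
      roundGB m 1 * (1 / 2 * weyl2 m κ (∫ p, weylSq (K.e p) s κ (K.R p) ∂μ) +
        ∫ p, (10 ^ 19 * weylN (K.e p) s κ (K.R p)) ^ m ∂μ)) ∧
    ((∀ p, 10 ^ 19 * weylN (K.e p) s κ (K.R p) ≤ κ) →
      |s ^ m * ∫ p, K.gb p ∂μ - roundGB m 1 * (κ ^ m * μ.real Set.univ +
        weyl2 m κ (∫ p, weylSq (K.e p) s κ (K.R p) ∂μ))| ≤
      roundGB m 1 * (1 / 2 * weyl2 m κ (∫ p, weylSq (K.e p) s κ (K.R p) ∂μ))) := by
  have hpt := fun p => ein_point (K.e p) hm (K.curv p) hs hκ (hE p)
  have hw : Integrable (fun p => weyl2 m κ (weylSq (K.e p) s κ (K.R p))) μ := by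
    have h : (fun p => weyl2 m κ (weylSq (K.e p) s κ (K.R p))) = fun p =>
        κ ^ (m - 2) / (8 * (2 * m - 1) * (2 * m - 3)) * weylSq (K.e p) s κ (K.R p) := by
      funext p
      unfold weyl2
      ring
    rw [h]
    exact hD.const_mul _
  have hmain : s ^ m * ∫ p, K.gb p ∂μ - roundGB m 1 * (κ ^ m * μ.real Set.univ +
        weyl2 m κ (∫ p, weylSq (K.e p) s κ (K.R p) ∂μ)) =
      ∫ p, (s ^ m * gbc (K.e p) (K.R p) - roundGB m 1 * (κ ^ m +
        weyl2 m κ (weylSq (K.e p) s κ (K.R p)))) ∂μ := by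
    have h1 : Integrable (fun p => s ^ m * gbc (K.e p) (K.R p)) μ := hi.const_mul _
    have h2 : Integrable (fun p => κ ^ m + weyl2 m κ (weylSq (K.e p) s κ (K.R p))) μ :=
      (integrable_const _).add hw
    rw [integral_sub h1 (h2.const_mul _), MeasureTheory.integral_const_mul,
      MeasureTheory.integral_const_mul, integral_add (integrable_const _) hw, weyl2_int,
      MeasureTheory.integral_const, smul_eq_mul, mul_comm (μ.real Set.univ)]
    rfl
  have hr : 0 ≤ roundGB m 1 := (roundGB_pos one_pos).le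
  rw [hmain]
  constructor
  · intro hx
    refine (MeasureTheory.abs_integral_le_integral_abs).trans ?_
    have h3 : roundGB m 1 * (1 / 2 * weyl2 m κ (∫ p, weylSq (K.e p) s κ (K.R p) ∂μ) +
        ∫ p, (10 ^ 19 * weylN (K.e p) s κ (K.R p)) ^ m ∂μ) =
        ∫ p, roundGB m 1 * (1 / 2 * weyl2 m κ (weylSq (K.e p) s κ (K.R p)) +
          (10 ^ 19 * weylN (K.e p) s κ (K.R p)) ^ m) ∂μ := by
      rw [MeasureTheory.integral_const_mul, integral_add (hw.const_mul _) hx,
        MeasureTheory.integral_const_mul, weyl2_int]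
    rw [h3]
    refine integral_mono_of_nonneg (Filter.Eventually.of_forall fun p => abs_nonneg _)
      (((hw.const_mul _).add hx).const_mul _) (Filter.Eventually.of_forall fun p => ?_)
    exact (hpt p).1
  · intro hsm
    refine (MeasureTheory.abs_integral_le_integral_abs).trans ?_
    have h3 : roundGB m 1 * (1 / 2 * weyl2 m κ (∫ p, weylSq (K.e p) s κ (K.R p) ∂μ)) =
        ∫ p, roundGB m 1 * (1 / 2 * weyl2 m κ (weylSq (K.e p) s κ (K.R p))) ∂μ := by
      rw [MeasureTheory.integral_const_mul, MeasureTheory.integral_const_mul, weyl2_int]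
    rw [h3]
    refine integral_mono_of_nonneg (Filter.Eventually.of_forall fun p => abs_nonneg _)
      ((hw.const_mul _).const_mul _) (Filter.Eventually.of_forall fun p => ?_)
    exact (hpt p).2 (hsm p)

/-- **Rigidity.** -/
theorem ein_rigid (hm : 2 ≤ m) {s κ : ℝ} (hs : s = 1 ∨ s = -1) (hκ : 0 < κ)
    (hE : ∀ p, Einstein (K.e p) (K.R p) (s * κ)) (hi : Integrable K.gb μ)
    (hD : Integrable (fun p => weylSq (K.e p) s κ (K.R p)) μ)
    (hsm : ∀ p, 10 ^ 19 * weylN (K.e p) s κ (K.R p) ≤ κ) :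
    roundGB m 1 * κ ^ m * μ.real Set.univ ≤ s ^ m * ∫ p, K.gb p ∂μ ∧
    (s ^ m * ∫ p, K.gb p ∂μ = roundGB m 1 * κ ^ m * μ.real Set.univ ↔
      ∀ᵐ p ∂μ, weylSq (K.e p) s κ (K.R p) = 0) := by
  have h := (ein_integral μ K hm hs hκ.le hE hi hD).2 hsm
  have hr : 0 < roundGB m 1 := roundGB_pos one_pos
  have hm2 : (2 : ℝ) ≤ m := by exact_mod_cast hm
  have h3 : (0 : ℝ) < 2 * m - 3 := by linarith
  have h4 : (0 : ℝ) < 2 * m - 1 := by linarith
  set I : ℝ := ∫ p, weylSq (K.e p) s κ (K.R p) ∂μ with hI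
  have hI0 : 0 ≤ I := integral_nonneg fun p => weylSq_nonneg _ _ _ _
  have hw0 : 0 ≤ weyl2 m κ I := weyl2_nonneg hm hκ.le hI0
  have h5 := abs_le.1 h
  have hrw : 0 ≤ roundGB m 1 * weyl2 m κ I := mul_nonneg hr.le hw0
  refine ⟨?_, ?_, ?_⟩
  · nlinarith [h5.1]
  · intro heq
    have h6 : roundGB m 1 * weyl2 m κ I ≤ 0 := by
      have := h5.1
      rw [heq] at this
      nlinarith
    have h7 : weyl2 m κ I = 0 := by
      have := mul_eq_zero.1 (le_antisymm h6 hrw)
      rcases this with h | h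
      · exact absurd h hr.ne'
      · exact h
    have h8 : I = 0 := by
      unfold weyl2 at h7
      rw [div_eq_zero_iff] at h7
      rcases h7 with h7 | h7
      · rcases mul_eq_zero.1 h7 with h7 | h7
        · exact absurd h7 (pow_pos hκ _).ne'
        · exact h7
      · exact absurd h7 (by positivity)
    have h9 := (integral_eq_zero_iff_of_nonneg
      (fun p => weylSq_nonneg (K.e p) s κ (K.R p)) hD).1 h8
    exact h9
  · intro hae
    have h8 : I = 0 := by
      rw [hI]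
      exact integral_eq_zero_of_ae hae
    have h9 : weyl2 m κ I = 0 := by
      rw [h8]
      unfold weyl2
      simp
    rw [h9] at h
    have h10 : s ^ m * ∫ p, K.gb p ∂μ - roundGB m 1 * (κ ^ m * μ.real Set.univ) = 0 := by
      simpa using h
    linarith

end field

end Pool.Agent.U661.EI
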