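import Pool.Agent.U661.EI.Uni

/-!
# Einstein tensors: the Weyl norm and the defect of the Gauss–Bonnet–Chern integrand
-/

set_option autoImplicit false

namespace Pool.Agent.U661.EI

open Finset MeasureTheory Pool.Agent.W666.GB Pool.Agent.W669.HD

variable {m : ℕ} {V : Type} [NormedAddCommGroup V] [InnerProductSpace ℝ V]

/-- the arithmetic of the remainder, small `y` -/
theorem rem_small (hm : 2 ≤ m) {κ y η : ℝ} (hκ : 0 ≤ κ) (hy : 0 ≤ y) (hη : η ≤ 1 / 2)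
    (h : y ≤ η * κ) :
    ∑ j ∈ Icc 3 m, κ ^ (m - j) * y ^ j ≤ 2 * η * (κ ^ (m - 2) * y ^ 2) := by
  rcases hκ.eq_or_lt with h0 | h0
  · have hy0 : y = 0 := le_antisymm (by rw [← h0, mul_zero] at h; exact h) hy
    have : ∑ j ∈ Icc 3 m, κ ^ (m - j) * y ^ j = 0 := by
      refine Finset.sum_eq_zero fun j hj => ?_
      rw [Finset.mem_Icc] at hj
      rw [hy0, zero_pow (by omega), mul_zero]
    rw [this, hy0]
    simp
  have hη0 : 0 ≤ η := by
    by_contra hneg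
    push Not at hneg
    have : η * κ < 0 := mul_neg_of_neg_of_pos hneg h0
    linarith
  have key : ∀ j ∈ Icc 3 m, κ ^ (m - j) * y ^ j ≤
      η * (κ ^ (m - 2) * y ^ 2) * (1 / 2) ^ (j - 3) := by
    intro j hj
    rw [Finset.mem_Icc] at hj
    have e1 : y ^ j = y ^ 2 * y * y ^ (j - 3) := by
      rw [← pow_succ, ← pow_add]
      congr 1
      omega
    have e2 : κ ^ (m - 2) = κ ^ (m - j) * κ * κ ^ (j - 3) := by
      rw [← pow_succ, ← pow_add]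
      congr 1
      omega
    have h1 : y ≤ 1 / 2 * κ := h.trans (mul_le_mul_of_nonneg_right hη hκ)
    have h2 : y ^ (j - 3) ≤ (1 / 2 * κ) ^ (j - 3) := pow_le_pow_left₀ hy h1 _
    calc κ ^ (m - j) * y ^ j = κ ^ (m - j) * y ^ 2 * (y * y ^ (j - 3)) := by rw [e1]; ring
      _ ≤ κ ^ (m - j) * y ^ 2 * (η * κ * (1 / 2 * κ) ^ (j - 3)) := by
        refine mul_le_mul_of_nonneg_left ?_ (by positivity)
        exact mul_le_mul h h2 (by positivity) (by positivity)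
      _ = _ := by rw [e2, mul_pow]; ring
  refine (Finset.sum_le_sum key).trans ?_
  rw [← Finset.mul_sum]
  have hs : ∑ j ∈ Icc 3 m, (1 / 2 : ℝ) ^ (j - 3) ≤ 2 := by
    have e1 : Icc 3 m = Ico 3 (m + 1) := by
      ext j
      simp only [mem_Icc, mem_Ico]
      omega
    rw [e1, Finset.sum_Ico_eq_sum_range]
    have e2 : ∀ k ∈ range (m + 1 - 3), (1 / 2 : ℝ) ^ (3 + k - 3) = (1 / 2) ^ k := fun k _ => by
      congr 1
      omega
    rw [Finset.sum_congr rfl e2]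
    have := Pool.Agent.U908.HS.half_sum (m + 1 - 3)
    have e3 : ∑ k ∈ range (m + 1 - 3), (1 / 2 : ℝ) ^ (k + 1) =
        1 / 2 * ∑ k ∈ range (m + 1 - 3), (1 / 2 : ℝ) ^ k := by
      rw [Finset.mul_sum]
      exact Finset.sum_congr rfl fun k _ => by rw [pow_succ]; ring
    rw [e3] at this
    linarith
  have hA : 0 ≤ η * (κ ^ (m - 2) * y ^ 2) := by positivity
  calc η * (κ ^ (m - 2) * y ^ 2) * ∑ j ∈ Icc 3 m, (1 / 2 : ℝ) ^ (j - 3)
      ≤ η * (κ ^ (m - 2) * y ^ 2) * 2 := mul_le_mul_of_nonneg_left hs hA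
    _ = _ := by ring

/-- the arithmetic of the remainder, large `y` -/
theorem rem_large {κ y η : ℝ} (hκ : 0 ≤ κ) (hη : 0 < η) (hη2 : η ≤ 1 / 2)
    (h : η * κ ≤ y) :
    ∑ j ∈ Icc 3 m, κ ^ (m - j) * y ^ j ≤ (y / η) ^ m := by
  have hy : 0 ≤ y := (mul_nonneg hη.le hκ).trans h
  have hk : κ ≤ y / η := by
    rw [le_div_iff₀ hη, mul_comm]
    exact h
  have key : ∀ j ∈ Icc 3 m, κ ^ (m - j) * y ^ j ≤ (y / η) ^ m * (1 / 2) ^ j := by
    intro j hj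
    rw [Finset.mem_Icc] at hj
    have h1 : κ ^ (m - j) ≤ (y / η) ^ (m - j) := pow_le_pow_left₀ hκ hk _
    have h2 : y ^ j ≤ (y / η) ^ j * (1 / 2) ^ j := by
      rw [← mul_pow]
      refine pow_le_pow_left₀ hy ?_ j
      calc y = y / η * η := by field_simp
        _ ≤ y / η * (1 / 2) := mul_le_mul_of_nonneg_left hη2 (by positivity)
    calc κ ^ (m - j) * y ^ j ≤ (y / η) ^ (m - j) * ((y / η) ^ j * (1 / 2) ^ j) :=
          mul_le_mul h1 h2 (by positivity) (by positivity)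
      _ = (y / η) ^ (m - j) * (y / η) ^ j * (1 / 2) ^ j := by ring
      _ = _ := by rw [← pow_add, Nat.sub_add_cancel hj.2]
  refine (Finset.sum_le_sum key).trans ?_
  rw [← Finset.mul_sum]
  have hs : ∑ j ∈ Icc 3 m, (1 / 2 : ℝ) ^ j ≤ 1 := by
    have h1 := Pool.Agent.U908.HS.half_sum m
    have h2 : ∑ k ∈ range m, (1 / 2 : ℝ) ^ (k + 1) = ∑ j ∈ Ico 1 (m + 1), (1 / 2 : ℝ) ^ j := by
      rw [Finset.sum_Ico_eq_sum_range]
      refine Finset.sum_congr (by rw [Nat.add_sub_cancel]) fun k _ => ?_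
      rw [add_comm]
    rw [h2] at h1
    refine le_trans ?_ h1
    refine Finset.sum_le_sum_of_subset_of_nonneg ?_ fun _ _ _ => by positivity
    intro j hj
    rw [Finset.mem_Icc] at hj
    rw [Finset.mem_Ico]
    omega
  calc (y / η) ^ m * ∑ j ∈ Icc 3 m, (1 / 2 : ℝ) ^ j ≤ (y / η) ^ m * 1 :=
        mul_le_mul_of_nonneg_left hs (by positivity)
    _ = _ := mul_one _

/-- The term `κ^(m-2) w / (8 (2 m - 1) (2 m - 3))`. -/
noncomputable def weyl2 (m : ℕ) (κ w : ℝ) : ℝ := κ ^ (m - 2) * w / (8 * (2 * m - 1) * (2 * m - 3))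

theorem weyl2_lower (hm : 2 ≤ m) {κ x : ℝ} (hκ : 0 ≤ κ) :
    κ ^ (m - 2) * x ^ 2 / 16 ≤ 1 / 2 * weyl2 m κ ((x * (2 * m)) ^ 2) := by
  have hm2 : (2 : ℝ) ≤ m := by exact_mod_cast hm
  have h3 : (0 : ℝ) < 2 * m - 3 := by linarith
  have h4 : (0 : ℝ) < 2 * m - 1 := by linarith
  unfold weyl2
  rw [← mul_div_assoc, div_le_div_iff₀ (by norm_num) (by positivity)]
  have h5 : 0 ≤ κ ^ (m - 2) * x ^ 2 := by positivity
  have h6 : (2 * (m : ℝ) - 1) * (2 * m - 3) ≤ (2 * m) ^ 2 := by nlinarith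
  calc κ ^ (m - 2) * x ^ 2 * (8 * (2 * m - 1) * (2 * m - 3))
      = 8 * (κ ^ (m - 2) * x ^ 2) * ((2 * m - 1) * (2 * m - 3)) := by ring
    _ ≤ 8 * (κ ^ (m - 2) * x ^ 2) * (2 * m) ^ 2 :=
        mul_le_mul_of_nonneg_left h6 (by positivity)
    _ = _ := by ring

theorem weyl2_nonneg (hm : 2 ≤ m) {κ w : ℝ} (hκ : 0 ≤ κ) (hw : 0 ≤ w) : 0 ≤ weyl2 m κ w := by
  have hm2 : (2 : ℝ) ≤ m := by exact_mod_cast hm
  have h3 : (0 : ℝ) < 2 * m - 3 := by linarith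
  have h4 : (0 : ℝ) < 2 * m - 1 := by linarith
  unfold weyl2
  positivity

/-- the remainder for Einstein tensors -/
theorem rem_ein (hm : 2 ≤ m) {κ x : ℝ} (hκ : 0 ≤ κ) (hx : 0 ≤ x) :
    3 / 10 * ∑ j ∈ Icc 3 m, κ ^ (m - j) * (5 * 10 ^ 5 * x) ^ j ≤
      1 / 2 * weyl2 m κ ((x * (2 * m)) ^ 2) + (10 ^ 19 * x) ^ m ∧
    (10 ^ 19 * x ≤ κ → 3 / 10 * ∑ j ∈ Icc 3 m, κ ^ (m - j) * (5 * 10 ^ 5 * x) ^ j ≤
      1 / 2 * weyl2 m κ ((x * (2 * m)) ^ 2)) := by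
  have h0 := weyl2_lower hm (x := x) hκ
  have hs : 10 ^ 19 * x ≤ κ → 3 / 10 * ∑ j ∈ Icc 3 m, κ ^ (m - j) * (5 * 10 ^ 5 * x) ^ j ≤
      1 / 2 * weyl2 m κ ((x * (2 * m)) ^ 2) := by
    intro h
    have h1 := rem_small hm hκ (y := 5 * 10 ^ 5 * x) (η := 5 / 10 ^ 14) (by positivity)
      (by norm_num) (by linarith)
    refine le_trans ?_ h0
    have h5 : 0 ≤ κ ^ (m - 2) * x ^ 2 := by positivity
    have e1 : κ ^ (m - 2) * (5 * 10 ^ 5 * x) ^ 2 = 25 * 10 ^ 10 * (κ ^ (m - 2) * x ^ 2) := by ring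
    rw [e1] at h1
    linarith
  refine ⟨?_, hs⟩
  rcases le_total (10 ^ 19 * x) κ with h | h
  · exact (hs h).trans (le_add_of_nonneg_right (by positivity))
  · have h1 := rem_large (m := m) hκ (y := 5 * 10 ^ 5 * x) (η := 5 / 10 ^ 14) (by norm_num)
      (by norm_num) (by linarith)
    have e1 : 5 * 10 ^ 5 * x / (5 / 10 ^ 14) = 10 ^ 19 * x := by ring
    rw [e1] at h1
    have h3 : 0 ≤ 1 / 2 * weyl2 m κ ((x * (2 * m)) ^ 2) := by
      have := weyl2_nonneg hm hκ (sq_nonneg (x * (2 * m)))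
      linarith
    have h4 : 0 ≤ ∑ j ∈ Icc 3 m, κ ^ (m - j) * (5 * 10 ^ 5 * x) ^ j :=
      Finset.sum_nonneg fun j _ => by positivity
    refine le_trans ?_ (h1.trans (le_add_of_nonneg_left h3))
    exact mul_le_of_le_one_left h4 (by norm_num)

end Pool.Agent.U661.EI
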